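import Mathlib

/-! Orthogonal coordinates on the regular simplex (running averages of the barycentric weights). -/

namespace Pool.Agent.Helper99.SX

open Finset

/-- partial sums `Λ_i = λ_0 + ... + λ_i` -/
noncomputable def Lam (l : ℕ → ℝ) (i : ℕ) : ℝ := ∑ j ∈ range (i + 1), l j

/-- the `(i+1)`-st coordinate `Λ_{i+1}/(i+2) - λ_{i+1}` -/
noncomputable def xi (l : ℕ → ℝ) (i : ℕ) : ℝ := Lam l (i + 1) / (i + 2) - l (i + 1)

/-- squared lengths of the axes -/
noncomputable def bsq (i : ℕ) : ℝ := ((i : ℝ) + 2) / (2 * ((i : ℝ) + 1))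

lemma Lam_succ (l : ℕ → ℝ) (i : ℕ) : Lam l (i + 1) = Lam l i + l (i + 1) := by
  unfold Lam; rw [sum_range_succ]

lemma quad (l : ℕ → ℝ) (n : ℕ) :
    ∑ i ∈ range n, bsq i * (xi l i) ^ 2 =
      (∑ j ∈ range (n + 1), l j ^ 2 - (Lam l n) ^ 2 / (n + 1)) / 2 := by
  induction n with
  | zero => simp [Lam]
  | succ n ih =>
    rw [sum_range_succ, ih, sum_range_succ _ (n + 1)]
    unfold xi bsq
    rw [Lam_succ]
    have h1 : (n : ℝ) + 1 ≠ 0 := by positivity
    have h2 : (n : ℝ) + 2 ≠ 0 := by positivity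
    push_cast
    rw [show (n : ℝ) + 1 + 1 = n + 2 by ring]
    field_simp
    ring

/-- weights of the glued coordinates -/
noncomputable def beta (m i : ℕ) : ℝ := ((m : ℝ) + 1) / (i + 1)

/-- telescoping identity for the glued coordinates -/
lemma top_sum (l : ℕ → ℝ) (m k : ℕ) (h1 : Lam l (m + k) = 1) :
    ∑ i ∈ range k, beta m (m + i) * (1 / ((m + i : ℕ) + 2 : ℝ) - xi l (m + i)) = 1 - Lam l m := by
  have key : ∀ k : ℕ, ∑ i ∈ range k, beta m (m + i) * (1 / ((m + i : ℕ) + 2 : ℝ) - xi l (m + i)) =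
      (1 - Lam l m) - ((m : ℝ) + 1) * (1 - Lam l (m + k)) / ((m + k : ℕ) + 1) := by
    intro k
    induction k with
    | zero =>
      have : (m : ℝ) + 1 ≠ 0 := by positivity
      simp
      field_simp
      ring
    | succ k ih =>
      rw [sum_range_succ, ih]
      unfold xi beta
      rw [show m + (k + 1) = (m + k) + 1 from rfl, Lam_succ]
      have h1 : (m : ℝ) + k + 1 ≠ 0 := by positivity
      have h2 : (m : ℝ) + k + 2 ≠ 0 := by positivity
      push_cast
      rw [show (m : ℝ) + k + 1 + 1 = m + k + 2 by ring]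
      field_simp
      ring
  rw [key k, h1]
  simp

end Pool.Agent.Helper99.SX
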