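import Pool.Agent.Helper99.SX.Num
import Pool.Agent.Helper38.SX.Vol

/-! Final estimates and small dimensions. -/

namespace Pool.Agent.Helper99.SX

open Finset

lemma log_bound (n : ℕ) (hn : 4096 ≤ n) : Real.log ((n : ℝ) + 1) ≤ 6.34 + Real.sqrt n / 32 := by
  have hn' : (4096 : ℝ) ≤ n := by exact_mod_cast hn
  have h1 : ((n : ℝ) + 1) = 4096 * (((n : ℝ) + 1) / 4096) := by field_simp
  have hpos : (0 : ℝ) < ((n : ℝ) + 1) / 4096 := by positivity
  have hlog2 : Real.log 2 ≤ 0.6931471808 := Real.log_two_lt_d9.le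
  have h2 : Real.log (4096 : ℝ) = 12 * Real.log 2 := by
    rw [show (4096 : ℝ) = 2 ^ 12 by norm_num, Real.log_pow]; norm_num
  have h3 : Real.log (((n : ℝ) + 1) / 4096) ≤ 2 * (Real.sqrt (((n : ℝ) + 1) / 4096) - 1) := by
    have h4 := Real.log_le_sub_one_of_pos (Real.sqrt_pos.2 hpos)
    have h5 : Real.log (((n : ℝ) + 1) / 4096) = 2 * Real.log (Real.sqrt (((n : ℝ) + 1) / 4096)) := by
      rw [Real.log_sqrt hpos.le]; ring
    rw [h5]; linarith
  have h6 : Real.sqrt (((n : ℝ) + 1) / 4096) = Real.sqrt ((n : ℝ) + 1) / 64 := by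
    rw [Real.sqrt_div (by positivity), show (4096 : ℝ) = 64 ^ 2 by norm_num,
      Real.sqrt_sq (by norm_num)]
  have h7 : Real.sqrt ((n : ℝ) + 1) ≤ Real.sqrt n + 0.01 := by
    rw [Real.sqrt_le_left (by positivity)]
    have hs : 64 ≤ Real.sqrt n := by
      apply Real.le_sqrt_of_sq_le; norm_num; exact_mod_cast hn'
    have hsq : Real.sqrt n ^ 2 = n := Real.sq_sqrt (by positivity)
    nlinarith
  rw [h1, Real.log_mul (by norm_num) hpos.ne', h2]
  rw [h6] at h3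
  linarith

lemma rho_le (n : ℕ) (hn : 4096 ≤ n) : rho n ≤ 1 / 4 := by
  have hn' : (4096 : ℝ) ≤ n := by exact_mod_cast hn
  have hs : 64 ≤ Real.sqrt n := by
    apply Real.le_sqrt_of_sq_le; norm_num; exact_mod_cast hn'
  have h1 := (Hs_le_log n).trans (log_bound n hn)
  unfold rho
  have h2 : Real.sqrt (2 / n) = Real.sqrt 2 / Real.sqrt n := Real.sqrt_div (by norm_num) _
  have h3 : Real.sqrt 2 ≤ 1.4143 := by
    rw [Real.sqrt_le_left (by norm_num)]; norm_num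
  rw [h2, div_mul_eq_mul_div, div_le_iff₀ (by linarith)]
  have h4 : 0 ≤ 1 + Hs n := by have := Hs_nonneg n; linarith
  calc Real.sqrt 2 * (1 + Hs n) ≤ 1.4143 * (1 + (6.34 + Real.sqrt n / 32)) :=
        mul_le_mul h3 (by linarith) h4 (by norm_num)
    _ ≤ 1 / 4 * Real.sqrt n := by linarith

lemma one_sub_ge (x : ℝ) (h0 : 0 ≤ x) (h1 : x ≤ 1 / 2) : Real.exp (-(2 * x)) ≤ 1 - x := by
  have hpos : 0 < 1 - x := by linarith
  rw [← Real.exp_log hpos]
  apply Real.exp_le_exp.2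
  have h := Real.one_sub_inv_le_log_of_pos hpos
  have h2 : -(2 * x) ≤ 1 - (1 - x)⁻¹ := by
    rw [le_sub_comm, inv_le_comm₀ hpos (by linarith), inv_eq_one_div, div_le_iff₀ (by linarith)]
    nlinarith
  linarith

/-- the error terms -/
lemma error_bound (n m q : ℕ) (hn : 4096 ≤ n) (hmn : m ≤ n) (hq1 : Real.sqrt n ≤ q)
    (hq2 : (q : ℝ) ≤ Real.sqrt n + 1) :
    Real.exp (-(64 * Real.sqrt n * Real.log ((n : ℝ) + 2))) * (6 * (((m : ℝ) + 1) ^ (2 * q) *
      (1 + 3 / (2 * q) * Hs m) ^ n)) ≤ (1 - 2 * rho n) ^ n := by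
  have hn' : (4096 : ℝ) ≤ n := by exact_mod_cast hn
  set s : ℝ := Real.sqrt n with hs
  have hs64 : 64 ≤ s := by
    rw [hs]; apply Real.le_sqrt_of_sq_le; norm_num; exact_mod_cast hn'
  have hss : s * s = n := Real.mul_self_sqrt (by positivity)
  set ℓ : ℝ := Real.log ((n : ℝ) + 2) with hℓ
  have hℓ1 : 1 ≤ ℓ := by
    rw [hℓ, Real.le_log_iff_exp_le (by positivity)]
    have := Real.exp_one_lt_d9
    linarith
  have hHn : Hs n ≤ ℓ := (Hs_le_log n).trans (Real.log_le_log (by positivity) (by linarith))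
  have hHm : Hs m ≤ ℓ := by
    refine le_trans ?_ hHn
    unfold Hs
    exact Finset.sum_le_sum_of_subset_of_nonneg (Finset.range_mono hmn) fun i _ _ => by positivity
  have hq0 : (0 : ℝ) < q := by linarith
  have hHm0 := Hs_nonneg m
  -- piece 1
  have p1 : (6 : ℝ) ≤ Real.exp (2 * s * ℓ) := by
    have h1 : (6 : ℝ) ≤ 2 * s * ℓ + 1 := by nlinarith
    exact h1.trans (Real.add_one_le_exp _)
  -- piece 2
  have p2 : ((m : ℝ) + 1) ^ (2 * q) ≤ Real.exp (4 * s * ℓ) := by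
    have h1 : ((m : ℝ) + 1) ≤ Real.exp ℓ := by
      rw [hℓ, Real.exp_log (by positivity)]
      have : (m : ℝ) ≤ n := by exact_mod_cast hmn
      linarith
    calc ((m : ℝ) + 1) ^ (2 * q) ≤ (Real.exp ℓ) ^ (2 * q) := pow_le_pow_left₀ (by positivity) h1 _
      _ = Real.exp (((2 * q : ℕ) : ℝ) * ℓ) := by rw [Real.exp_nat_mul]
      _ ≤ Real.exp (4 * s * ℓ) := by
          apply Real.exp_le_exp.2
          push_cast
          nlinarith
  -- piece 3
  have p3 : (1 + 3 / (2 * q) * Hs m) ^ n ≤ Real.exp (2 * s * ℓ) := by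
    have h1 : 1 + 3 / (2 * q) * Hs m ≤ Real.exp (3 / (2 * q) * Hs m) := by
      have := Real.add_one_le_exp (3 / (2 * (q : ℝ)) * Hs m); linarith
    calc (1 + 3 / (2 * q) * Hs m) ^ n ≤ (Real.exp (3 / (2 * q) * Hs m)) ^ n :=
          pow_le_pow_left₀ (by positivity) h1 _
      _ = Real.exp (n * (3 / (2 * q) * Hs m)) := by rw [Real.exp_nat_mul]
      _ ≤ Real.exp (2 * s * ℓ) := by
          apply Real.exp_le_exp.2
          have h2 : (n : ℝ) * (3 / (2 * q) * Hs m) = (3 / 2) * (n / q) * Hs m := by ring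
          have h3 : (n : ℝ) / q ≤ s := by
            rw [div_le_iff₀ hq0, ← hss]
            exact mul_le_mul_of_nonneg_left hq1 (by linarith)
          have h4 : 0 ≤ (n : ℝ) / q := by positivity
          rw [h2]
          nlinarith [mul_le_mul h3 hHm hHm0 (by linarith : (0:ℝ) ≤ s)]
  -- piece 4
  have hr0 : 0 ≤ rho n := by
    unfold rho
    have := Hs_nonneg n
    positivity
  have hr := rho_le n hn
  have p4 : Real.exp (-(12 * s * ℓ)) ≤ (1 - 2 * rho n) ^ n := by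
    have h1 := one_sub_ge (2 * rho n) (by linarith) (by linarith)
    have h2 : n * rho n ≤ 3 * s * ℓ := by
      unfold rho
      have h3 : Real.sqrt (2 / n) = Real.sqrt 2 / s := Real.sqrt_div (by norm_num) _
      have h4 : Real.sqrt 2 ≤ 1.5 := by
        rw [Real.sqrt_le_left (by norm_num)]; norm_num
      rw [h3, ← hss]
      have h5 : s * s * (Real.sqrt 2 / s * (1 + Hs n)) = s * (Real.sqrt 2 * (1 + Hs n)) := by
        field_simp
      rw [h5]
      have h6 : Real.sqrt 2 * (1 + Hs n) ≤ 1.5 * (ℓ + ℓ) :=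
        mul_le_mul h4 (by linarith) (by have := Hs_nonneg n; linarith) (by norm_num)
      nlinarith
    calc Real.exp (-(12 * s * ℓ)) ≤ Real.exp (n * (-(2 * (2 * rho n)))) := by
          apply Real.exp_le_exp.2; nlinarith
      _ = (Real.exp (-(2 * (2 * rho n)))) ^ n := by rw [Real.exp_nat_mul]
      _ ≤ (1 - 2 * rho n) ^ n := pow_le_pow_left₀ (Real.exp_nonneg _) h1 _
  have hsl : 0 ≤ s * ℓ := by positivity
  calc Real.exp (-(64 * s * ℓ)) * (6 * (((m : ℝ) + 1) ^ (2 * q) * (1 + 3 / (2 * q) * Hs m) ^ n))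
      ≤ Real.exp (-(64 * s * ℓ)) * (Real.exp (2 * s * ℓ) * (Real.exp (4 * s * ℓ) * Real.exp (2 * s * ℓ))) := by
        gcongr
    _ = Real.exp (-(56 * s * ℓ)) := by
        rw [← Real.exp_add, ← Real.exp_add, ← Real.exp_add]; congr 1; ring
    _ ≤ Real.exp (-(12 * s * ℓ)) := by
        apply Real.exp_le_exp.2; nlinarith
    _ ≤ _ := p4

/-- the main numerical inequality, large dimensions -/
lemma final_large (m k q : ℕ) (hn : 4096 ≤ m + k)
    (hf : (3 / 2 : ℝ) ^ m * (Wp m k)⁻¹ ≤ 6 * (1 + LL) ^ (m + k))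
    (hq1 : Real.sqrt (m + k : ℕ) ≤ q) (hq2 : (q : ℝ) ≤ Real.sqrt (m + k : ℕ) + 1) :
    Real.exp (-(64 * Real.sqrt (m + k : ℕ) * Real.log ((m + k : ℕ) + 2))) *
      ((m + k).factorial * Real.sqrt (2 ^ (m + k) / ((m + k : ℕ) + 1))) /
        (2 + 2 * Real.log (3 / 2)) ^ (m + k) ≤
      (2 ^ m * (1 - 2 * rho (m + k)) ^ (m + k) / (C0 m k q * (3 / 2) ^ m)) * 2 ^ k := by
  set n := m + k with hnn
  have herr := error_bound n m q hn (by omega) hq1 hq2
  have hL := LL_pos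
  have hWp := Wp_pos m k
  have hH := Hs_nonneg m
  have hq0 : (0 : ℝ) < q := by
    have : (0 : ℝ) < Real.sqrt (n : ℕ) := Real.sqrt_pos.2 (by exact_mod_cast (by omega : 0 < n))
    linarith
  set E : ℝ := Real.exp (-(64 * Real.sqrt (n : ℕ) * Real.log ((n : ℕ) + 2))) with hE
  have hE0 : 0 < E := Real.exp_pos _
  have hRad : Rad q m = 2 * (1 + 3 / (2 * q) * Hs m) := by
    unfold Rad; field_simp
  have hC : C0 m k q = Real.sqrt (((n : ℕ) + 1 : ℝ) / 2 ^ n) * (((m : ℝ) + 1) ^ (2 * q) *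
      ((Wp m k)⁻¹ * ((2 * (2 * (1 + 3 / (2 * q) * Hs m))) ^ n / n.factorial))) := by
    unfold C0
    rw [prod_wt, hRad]
  set G : ℝ := 1 + 3 / (2 * (q : ℝ)) * Hs m with hG
  have hGpos : 0 < G := by rw [hG]; positivity
  set S : ℝ := Real.sqrt (((n : ℕ) + 1 : ℝ) / 2 ^ n) with hS
  have hSpos : 0 < S := by rw [hS]; positivity
  have hS2 : Real.sqrt (2 ^ n / ((n : ℕ) + 1)) = S⁻¹ := by
    rw [hS, ← Real.sqrt_inv, inv_div]
  have hfac : (0 : ℝ) < n.factorial := by positivity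
  have hA : (2 + 2 * Real.log (3 / 2)) ^ n = 2 ^ n * (1 + LL) ^ n := by
    rw [← mul_pow]; congr 1; unfold LL; ring
  have hApos : 0 < (1 + LL) ^ n := by positivity
  rw [hS2, hA, hC]
  have hrhs : (2 ^ m * (1 - 2 * rho n) ^ n / (S * (((m : ℝ) + 1) ^ (2 * q) *
      ((Wp m k)⁻¹ * ((2 * (2 * G)) ^ n / n.factorial))) * (3 / 2) ^ m)) * 2 ^ k =
      (n.factorial * S⁻¹ / 2 ^ n) * ((1 - 2 * rho n) ^ n / ((((m : ℝ) + 1) ^ (2 * q) * G ^ n) *
        ((3 / 2) ^ m * (Wp m k)⁻¹))) := by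
    have e1 : (2 : ℝ) ^ n = 2 ^ m * 2 ^ k := by rw [hnn, pow_add]
    rw [mul_pow, mul_pow, e1]
    field_simp
  rw [hrhs]
  have hden : 0 < (((m : ℝ) + 1) ^ (2 * q) * G ^ n) * ((3 / 2) ^ m * (Wp m k)⁻¹) := by positivity
  have key : E / (1 + LL) ^ n ≤ (1 - 2 * rho n) ^ n / ((((m : ℝ) + 1) ^ (2 * q) * G ^ n) *
        ((3 / 2) ^ m * (Wp m k)⁻¹)) := by
    rw [div_le_div_iff₀ hApos hden]
    calc E * ((((m : ℝ) + 1) ^ (2 * q) * G ^ n) * ((3 / 2) ^ m * (Wp m k)⁻¹))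
        ≤ E * ((((m : ℝ) + 1) ^ (2 * q) * G ^ n) * (6 * (1 + LL) ^ n)) := by gcongr
      _ = (E * (6 * (((m : ℝ) + 1) ^ (2 * q) * G ^ n))) * (1 + LL) ^ n := by ring
      _ ≤ (1 - 2 * rho n) ^ n * (1 + LL) ^ n := mul_le_mul_of_nonneg_right herr hApos.le
  calc E * (n.factorial * S⁻¹) / (2 ^ n * (1 + LL) ^ n)
      = (n.factorial * S⁻¹ / 2 ^ n) * (E / (1 + LL) ^ n) := by
        field_simp
    _ ≤ _ := mul_le_mul_of_nonneg_left key (by positivity)

/-- small dimensions: the bound is at most one -/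
lemma final_small (n : ℕ) (hn1 : 1 ≤ n) (hn : n < 4096) :
    Real.exp (-(64 * Real.sqrt n * Real.log ((n : ℝ) + 2))) *
      (n.factorial * Real.sqrt (2 ^ n / (n + 1))) / (2 + 2 * Real.log (3 / 2)) ^ n ≤ 1 := by
  have hL := LL_pos
  have hn' : (n : ℝ) ≤ 4096 := by exact_mod_cast hn.le
  set s : ℝ := Real.sqrt n with hs
  have hss : s * s = n := Real.mul_self_sqrt (by positivity)
  have hs0 : 0 ≤ s := Real.sqrt_nonneg _
  have hs64 : s ≤ 64 := by
    rw [hs, Real.sqrt_le_left (by norm_num)]; norm_num; exact_mod_cast hn'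
  have hA : (2 : ℝ) ^ n ≤ (2 + 2 * Real.log (3 / 2)) ^ n := by
    apply pow_le_pow_left₀ (by norm_num)
    have : 0 < Real.log (3 / 2) := hL
    linarith
  have hApos : (0 : ℝ) < (2 + 2 * Real.log (3 / 2)) ^ n := lt_of_lt_of_le (by positivity) hA
  rw [div_le_one hApos]
  refine le_trans ?_ hA
  have h1 : Real.sqrt (2 ^ n / ((n : ℝ) + 1)) ≤ 2 ^ n := by
    rw [Real.sqrt_le_left (by positivity)]
    rw [div_le_iff₀ (by positivity)]
    have h2 : (1 : ℝ) ≤ 2 ^ n := one_le_pow₀ (by norm_num)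
    have h3 : (1 : ℝ) ≤ (n : ℝ) + 1 := by have := Nat.cast_nonneg (α := ℝ) n; linarith
    nlinarith [mul_nonneg (sub_nonneg.2 h2) (sub_nonneg.2 h3), sq_nonneg ((2 : ℝ) ^ n)]
  have h2 : (n.factorial : ℝ) ≤ Real.exp (n * Real.log ((n : ℝ) + 2)) := by
    rw [Real.exp_nat_mul, Real.exp_log (by positivity)]
    calc (n.factorial : ℝ) ≤ (n : ℝ) ^ n := by exact_mod_cast Nat.factorial_le_pow n
      _ ≤ ((n : ℝ) + 2) ^ n := pow_le_pow_left₀ (by positivity) (by linarith) _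
  have hlog : 0 ≤ Real.log ((n : ℝ) + 2) := Real.log_nonneg (by
    have := Nat.cast_nonneg (α := ℝ) n; linarith)
  calc Real.exp (-(64 * s * Real.log ((n : ℝ) + 2))) * (n.factorial * Real.sqrt (2 ^ n / (n + 1)))
      ≤ Real.exp (-(64 * s * Real.log ((n : ℝ) + 2))) * (Real.exp (n * Real.log ((n : ℝ) + 2)) * 2 ^ n) := by
        gcongr
    _ = Real.exp ((s * (s - 64)) * Real.log ((n : ℝ) + 2)) * 2 ^ n := by
        rw [← mul_assoc, ← Real.exp_add]
        congr 2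
        rw [← hss]; ring
    _ ≤ 1 * 2 ^ n := by
        refine mul_le_mul_of_nonneg_right ?_ (by positivity)
        rw [Real.exp_le_one_iff]
        have : s * (s - 64) ≤ 0 := mul_nonpos_of_nonneg_of_nonpos hs0 (by linarith)
        exact mul_nonpos_of_nonpos_of_nonneg this hlog
    _ = 2 ^ n := one_mul _

end Pool.Agent.Helper99.SX
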