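import Pool.Agent.Helper99.SX.Place

/-! Difference sets of placements, their volume, and the greedy choice of the clusters. -/

namespace Pool.Agent.Helper99.SX

open MeasureTheory Set Finset
open scoped ENNReal symmDiff

/-- the linear map from scaled differences to the cube -/
noncomputable def Lmap (n : ℕ) (N : Finset (Fin n)) : Matrix (Fin n) (Fin n) ℝ :=
  U n * Matrix.diagonal fun i => sg N i * Real.sqrt (bsq i)

/-- difference set of the clusters with low flips `N`, `N ∆ M` -/
def Dset (n m : ℕ) (N M : Finset (Fin n)) : Set (Fin n → ℝ) :=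
  (Matrix.toLin' (Lmap n N)) '' Wset n m M

lemma prod_bsq (n : ℕ) : ∏ i : Fin n, bsq i = ((n : ℝ) + 1) / 2 ^ n := by
  rw [Fin.prod_univ_eq_prod_range (fun i => bsq i) n]
  induction n with
  | zero => simp
  | succ n ih =>
    rw [Finset.prod_range_succ, ih]
    unfold bsq
    have h1 : (n : ℝ) + 1 ≠ 0 := by positivity
    push_cast
    field_simp
    ring

lemma abs_det_Lmap (n : ℕ) (hn : 0 < n) (N : Finset (Fin n)) :
    |(Lmap n N).det| = Real.sqrt (((n : ℝ) + 1) / 2 ^ n) := by
  unfold Lmap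
  rw [Matrix.det_mul, Matrix.det_diagonal, abs_mul, abs_det_U n hn, one_mul, Finset.abs_prod,
    ← prod_bsq, Real.sqrt_prod _ fun i _ => (bsq_pos _).le]
  refine Finset.prod_congr rfl fun i _ => ?_
  rw [abs_mul, abs_sg, one_mul, abs_of_nonneg (Real.sqrt_nonneg _)]

/-- the constant in the volume bound -/
noncomputable def C0 (m k q : ℕ) : ℝ :=
  Real.sqrt (((m + k : ℕ) + 1 : ℝ) / 2 ^ (m + k)) * (((m : ℝ) + 1) ^ (2 * q) *
      ((∏ i : Fin (m + k), wt m i)⁻¹ * ((2 * Rad q m) ^ (m + k) / (m + k).factorial)))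

lemma C0_nonneg (m k q : ℕ) : 0 ≤ C0 m k q := by
  unfold C0
  have h1 := Rad_nonneg q m
  have h2 : 0 ≤ (∏ i : Fin (m + k), wt m i)⁻¹ :=
    inv_nonneg.2 (Finset.prod_nonneg fun i _ => (wt_pos m i).le)
  positivity

lemma volume_Dset_le (m k q : ℕ) (hn : 0 < m + k) (hq : 0 < q) (N M : Finset (Fin (m + k)))
    (hM : ∀ i ∈ M, (i : ℕ) < m) :
    volume (Dset (m + k) m N M) ≤ ENNReal.ofReal (C0 m k q * (1 / 2) ^ M.card) := by
  unfold Dset
  rw [MeasureTheory.Measure.addHaar_image_linearMap, LinearMap.det_toLin', abs_det_Lmap _ hn]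
  have h := volume_Wset_le m k q hn hq M hM
  calc ENNReal.ofReal (Real.sqrt (((m + k : ℕ) + 1 : ℝ) / 2 ^ (m + k))) * volume (Wset (m + k) m M)
      ≤ ENNReal.ofReal (Real.sqrt (((m + k : ℕ) + 1 : ℝ) / 2 ^ (m + k))) *
        ENNReal.ofReal (((m : ℝ) + 1) ^ (2 * q) * ((1 / 2) ^ M.card *
        ((∏ i : Fin (m + k), wt m i)⁻¹ * ((2 * Rad q m) ^ (m + k) / (m + k).factorial)))) := by
        gcongr
    _ = _ := by
        rw [← ENNReal.ofReal_mul (Real.sqrt_nonneg _)]
        congr 1
        unfold C0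
        ring

/-- low coordinates -/
def low (n m : ℕ) : Finset (Fin n) := Finset.univ.filter fun i : Fin n => (i : ℕ) < m

lemma card_low (m k : ℕ) : (low (m + k) m).card = m := by
  have h : (low (m + k) m).map Fin.valEmbedding = Finset.range m := by
    ext j
    simp only [low, Finset.mem_map, Finset.mem_filter, Finset.mem_univ, true_and,
      Fin.valEmbedding_apply, Finset.mem_range]
    constructor
    · rintro ⟨i, hi, rfl⟩; exact hi
    · intro hj; exact ⟨⟨j, by omega⟩, hj, rfl⟩
  rw [← Finset.card_map Fin.valEmbedding, h, Finset.card_range]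

lemma sg_symmDiff {n : ℕ} (F F' : Finset (Fin n)) (i : Fin n) : sg F i * sg F' i = sg (F ∆ F') i := by
  unfold sg
  by_cases h1 : i ∈ F <;> by_cases h2 : i ∈ F' <;> simp [h1, h2, Finset.mem_symmDiff]

/-- two clusters that do not conflict are disjoint -/
lemma disjoint_of_notMem (n m : ℕ) (F F' N N' : Finset (Fin n))
    (hF : ∀ i : Fin n, (i : ℕ) < m → (i ∈ F ↔ i ∈ N)) (hF' : ∀ i : Fin n, (i : ℕ) < m → (i ∈ F' ↔ i ∈ N'))
    (x x' : Fin n → ℝ) (h : x' - x ∉ Dset n m N (N ∆ N')) :
    Disjoint (convexHull ℝ (range (vtx n m F x))) (convexHull ℝ (range (vtx n m F' x'))) := by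
  rw [Set.disjoint_left]
  intro z hz hz'
  apply h
  obtain ⟨l, hl, hz⟩ := mem_hull n m F x z hz
  obtain ⟨l', hl', hz'⟩ := mem_hull n m F' x' z hz'
  refine ⟨fun i => sg N i * (sg F i * (xi l i - cen m i) - sg F' i * (xi l' i - cen m i)), ?_, ?_⟩
  · refine ⟨l, l', hl, hl', fun i hi => ?_, fun i hi => ?_⟩
    · have e1 : sg F i = sg N i := by unfold sg; simp only [hF i hi]
      have e2 : sg F' i = sg N' i := by unfold sg; simp only [hF' i hi]
      simp only [cen, if_pos hi, sub_zero]
      rw [e1, e2, ← sg_symmDiff]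
      have := sg_sq N i
      linear_combination (xi l i) * this
    · have hc : cen m i = 1 / ((i : ℕ) + 2 : ℝ) := by rw [cen, if_neg (by omega)]
      have h1 := xi_le n l hl i i.2
      have h2 := xi_le n l' hl' i i.2
      rw [abs_mul, abs_sg, one_mul, hc]
      refine (abs_sub _ _).trans ?_
      rw [abs_mul, abs_sg, one_mul, abs_mul, abs_sg, one_mul, abs_of_nonpos (by linarith),
        abs_of_nonpos (by linarith)]
      linarith
  · rw [Matrix.toLin'_apply, Lmap, ← Matrix.mulVec_mulVec]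
    have e : (Matrix.diagonal fun i => sg N i * Real.sqrt (bsq i)).mulVec
        (fun i => sg N i * (sg F i * (xi l i - cen m i) - sg F' i * (xi l' i - cen m i))) =
        pt n m F l - pt n m F' l' := by
      funext i
      rw [Matrix.mulVec_diagonal]
      simp only [pt, Pi.sub_apply]
      have := sg_sq N i
      linear_combination (Real.sqrt (bsq i) * (sg F i * (xi l i - cen m i) - sg F' i * (xi l' i - cen m i))) * this
    rw [e, Matrix.mulVec_sub]
    have : x + (U n).mulVec (pt n m F l) = x' + (U n).mulVec (pt n m F' l') := by rw [← hz, ← hz']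
    funext i
    have h3 := congrFun this i
    simp only [Pi.add_apply, Pi.sub_apply] at h3 ⊢
    linarith

lemma sum_half_pow (n : ℕ) (S N : Finset (Fin n)) (hN : N ⊆ S) :
    ∑ M ∈ S.powerset, (1 / 2 : ℝ) ^ (N ∆ M).card = (3 / 2) ^ S.card := by
  have h1 : ∑ M ∈ S.powerset, (1 / 2 : ℝ) ^ (N ∆ M).card = ∑ M ∈ S.powerset, (1 / 2 : ℝ) ^ M.card := by
    refine Finset.sum_bij' (fun M _ => N ∆ M) (fun M _ => N ∆ M) ?_ ?_ ?_ ?_ ?_
    · intro M hM
      rw [Finset.mem_powerset] at hM ⊢
      intro i hi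
      rcases Finset.mem_symmDiff.1 hi with h | h
      · exact hN h.1
      · exact hM h.1
    · intro M hM
      rw [Finset.mem_powerset] at hM ⊢
      intro i hi
      rcases Finset.mem_symmDiff.1 hi with h | h
      · exact hN h.1
      · exact hM h.1
    · intro M _; exact symmDiff_symmDiff_cancel_left N M
    · intro M _; exact symmDiff_symmDiff_cancel_left N M
    · intro M _; rfl
  rw [h1]
  have h2 := Finset.sum_pow_mul_eq_add_pow (1 / 2 : ℝ) 1 S
  simp only [one_pow, mul_one] at h2
  rw [h2]; norm_num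

/-- greedy step -/
lemma greedy (m k q : ℕ) (hn : 0 < m + k) (hq : 0 < q) (Q : Set (Fin (m + k) → ℝ)) (K : ℕ)
    (x : Fin K → (Fin (m + k) → ℝ)) (N : Fin K → Finset (Fin (m + k)))
    (hN : ∀ i, N i ∈ (low (m + k) m).powerset)
    (h : ENNReal.ofReal (K * (C0 m k q * (3 / 2) ^ m)) < 2 ^ m * volume Q) :
    ∃ y ∈ Q, ∃ M ∈ (low (m + k) m).powerset, ∀ i, y - x i ∉ Dset (m + k) m (N i) (N i ∆ M) := by
  by_contra hcon
  push Not at hcon
  have h1 : ∀ M ∈ (low (m + k) m).powerset, volume Q ≤
      ENNReal.ofReal (∑ i, C0 m k q * (1 / 2) ^ (N i ∆ M).card) := by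
    intro M hM
    have hsub : Q ⊆ ⋃ i, (fun z => x i + z) '' Dset (m + k) m (N i) (N i ∆ M) := by
      intro y hy
      obtain ⟨i, hi⟩ := hcon y hy M hM
      exact mem_iUnion.2 ⟨i, y - x i, hi, by simp⟩
    calc volume Q ≤ volume (⋃ i, (fun z => x i + z) '' Dset (m + k) m (N i) (N i ∆ M)) :=
          measure_mono hsub
      _ ≤ ∑ i, volume ((fun z => x i + z) '' Dset (m + k) m (N i) (N i ∆ M)) :=
          measure_iUnion_fintype_le _ _
      _ = ∑ i, volume (Dset (m + k) m (N i) (N i ∆ M)) := by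
          refine Finset.sum_congr rfl fun i _ => ?_
          rw [Set.image_add_left, measure_preimage_add]
      _ ≤ ∑ i, ENNReal.ofReal (C0 m k q * (1 / 2) ^ (N i ∆ M).card) := by
          refine Finset.sum_le_sum fun i _ => volume_Dset_le m k q hn hq _ _ ?_
          intro j hj
          have hNi := Finset.mem_powerset.1 (hN i)
          have hM' := Finset.mem_powerset.1 hM
          rcases Finset.mem_symmDiff.1 hj with h | h
          · exact (Finset.mem_filter.1 (hNi h.1)).2
          · exact (Finset.mem_filter.1 (hM' h.1)).2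
      _ = ENNReal.ofReal (∑ i, C0 m k q * (1 / 2) ^ (N i ∆ M).card) := by
          rw [ENNReal.ofReal_sum_of_nonneg]
          intro i _
          exact mul_nonneg (C0_nonneg _ _ _) (by positivity)
  have h2 : 2 ^ m * volume Q ≤ ENNReal.ofReal (K * (C0 m k q * (3 / 2) ^ m)) := by
    calc 2 ^ m * volume Q = ∑ M ∈ (low (m + k) m).powerset, volume Q := by
          rw [Finset.sum_const, Finset.card_powerset, card_low, nsmul_eq_mul]
          push_cast
          rfl
      _ ≤ ∑ M ∈ (low (m + k) m).powerset, ENNReal.ofReal (∑ i, C0 m k q * (1 / 2) ^ (N i ∆ M).card) :=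
          Finset.sum_le_sum h1
      _ = ENNReal.ofReal (∑ M ∈ (low (m + k) m).powerset, ∑ i, C0 m k q * (1 / 2) ^ (N i ∆ M).card) := by
          rw [ENNReal.ofReal_sum_of_nonneg]
          intro M _
          exact Finset.sum_nonneg fun i _ => mul_nonneg (C0_nonneg _ _ _) (by positivity)
      _ = ENNReal.ofReal (K * (C0 m k q * (3 / 2) ^ m)) := by
          congr 1
          rw [Finset.sum_comm]
          have : ∀ i ∈ (Finset.univ : Finset (Fin K)),
              ∑ M ∈ (low (m + k) m).powerset, C0 m k q * (1 / 2 : ℝ) ^ (N i ∆ M).card =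
              C0 m k q * (3 / 2) ^ m := by
            intro i _
            rw [← Finset.mul_sum, sum_half_pow _ _ _ (Finset.mem_powerset.1 (hN i)), card_low]
          rw [Finset.sum_congr rfl this]
          simp
  exact absurd h (not_lt.2 h2)

lemma exists_clusters (m k q : ℕ) (hn : 0 < m + k) (hq : 0 < q) (Q : Set (Fin (m + k) → ℝ)) (K : ℕ)
    (h : ENNReal.ofReal ((K - 1 : ℕ) * (C0 m k q * (3 / 2) ^ m)) < 2 ^ m * volume Q) :
    ∃ (x : Fin K → (Fin (m + k) → ℝ)) (N : Fin K → Finset (Fin (m + k))),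
      (∀ i, x i ∈ Q) ∧ (∀ i, N i ∈ (low (m + k) m).powerset) ∧
      ∀ i j, i < j → x j - x i ∉ Dset (m + k) m (N i) (N i ∆ N j) := by
  induction K with
  | zero => exact ⟨fun i => i.elim0, fun i => i.elim0, fun i => i.elim0, fun i => i.elim0, fun i => i.elim0⟩
  | succ K ih =>
    have hC : 0 ≤ C0 m k q * (3 / 2) ^ m := mul_nonneg (C0_nonneg _ _ _) (by positivity)
    have hK : ENNReal.ofReal ((K - 1 : ℕ) * (C0 m k q * (3 / 2) ^ m)) < 2 ^ m * volume Q := by
      refine lt_of_le_of_lt (ENNReal.ofReal_le_ofReal ?_) h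
      refine mul_le_mul_of_nonneg_right ?_ hC
      exact_mod_cast (by omega : K - 1 ≤ K + 1 - 1)
    obtain ⟨x, N, hx, hN, hxx⟩ := ih hK
    obtain ⟨y, hy, M, hM, hyx⟩ := greedy m k q hn hq Q K x N hN (by simpa using h)
    refine ⟨Fin.snoc (α := fun _ => Fin (m + k) → ℝ) x y,
      Fin.snoc (α := fun _ => Finset (Fin (m + k))) N M, ?_, ?_, ?_⟩
    · intro i
      refine Fin.lastCases ?_ (fun i => ?_) i
      · simpa using hy
      · simpa using hx i
    · intro i
      refine Fin.lastCases ?_ (fun i => ?_) i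
      · rw [Fin.snoc_last]; exact hM
      · rw [Fin.snoc_castSucc]; exact hN i
    · intro i j
      refine Fin.lastCases ?_ (fun j => ?_) j
      · refine Fin.lastCases ?_ (fun i => ?_) i
        · intro h; exact absurd h (lt_irrefl _)
        · intro _; simpa using hyx i
      · refine Fin.lastCases ?_ (fun i => ?_) i
        · intro h; exact absurd h (not_lt.2 (Fin.le_last _))
        · intro h; simpa using hxx i j (by simpa using h)

end Pool.Agent.Helper99.SX
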