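import Mathlib

/-! Volume of weighted cross-polytopes cut by coordinate half-spaces. -/

namespace Pool.Agent.Helper99.SX

open MeasureTheory Set Finset
open scoped ENNReal

/-- diagonal change of variables -/
lemma volume_diag {n : ℕ} (d : Fin n → ℝ) (hd : ∀ i, d i ≠ 0) (s : Set (Fin n → ℝ)) :
    volume ((fun z : Fin n → ℝ => fun i => d i * z i) ⁻¹' s) =
      ENNReal.ofReal (∏ i, |d i|)⁻¹ * volume s := by
  have h1 : (fun z : Fin n → ℝ => fun i => d i * z i) = Matrix.toLin' (Matrix.diagonal d) := by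
    ext z i
    simp [Matrix.mulVec_diagonal]
  have hdet : LinearMap.det (Matrix.toLin' (Matrix.diagonal d)) = ∏ i, d i := by
    rw [LinearMap.det_toLin', Matrix.det_diagonal]
  have hne : LinearMap.det (Matrix.toLin' (Matrix.diagonal d)) ≠ 0 := by
    rw [hdet]; exact Finset.prod_ne_zero_iff.2 fun i _ => hd i
  rw [h1, Measure.addHaar_preimage_linearMap _ hne, hdet, abs_inv, Finset.abs_prod]

/-- the weighted cross-polytope, cut by `ζ_i > 0` for `i ∈ M` -/
def Pset {n : ℕ} (w : Fin n → ℝ) (R : ℝ) (M : Finset (Fin n)) : Set (Fin n → ℝ) :=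
  {z | ∑ i, w i * |z i| ≤ R ∧ ∀ i ∈ M, 0 < z i}

lemma measurableSet_Pset {n : ℕ} (w : Fin n → ℝ) (R : ℝ) (M : Finset (Fin n)) :
    MeasurableSet (Pset w R M) := by
  have h1 : MeasurableSet {z : Fin n → ℝ | ∑ i, w i * |z i| ≤ R} :=
    (isClosed_le (by fun_prop) continuous_const).measurableSet
  have h2 : MeasurableSet {z : Fin n → ℝ | ∀ i ∈ M, 0 < z i} := by
    have : {z : Fin n → ℝ | ∀ i ∈ M, 0 < z i} = ⋂ i ∈ M, {z : Fin n → ℝ | 0 < z i} := by
      ext z; simp
    rw [this]
    exact Finset.measurableSet_biInter M fun i _ =>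
      (isOpen_lt continuous_const (continuous_apply i)).measurableSet
  exact h1.inter h2

lemma volume_ball (n : ℕ) (hn : 0 < n) (R : ℝ) (hR : 0 ≤ R) :
    volume {z : Fin n → ℝ | ∑ i, |z i| ≤ R} = ENNReal.ofReal ((2 * R) ^ n / n.factorial) := by
  have : Nonempty (Fin n) := ⟨⟨0, hn⟩⟩
  have h := MeasureTheory.volume_sum_rpow_le (ι := Fin n) (p := 1) le_rfl R
  have h2 : {x : Fin n → ℝ | (∑ i, |x i| ^ (1 : ℝ)) ^ (1 / 1 : ℝ) ≤ R} =
      {z : Fin n → ℝ | ∑ i, |z i| ≤ R} := by
    ext x; simp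
  rw [h2] at h
  rw [h]
  have hG : Real.Gamma (1 / 1 + 1) = 1 := by norm_num [Real.Gamma_two]
  rw [hG]
  simp only [Fintype.card_fin, mul_one, div_one]
  rw [Real.Gamma_nat_eq_factorial, ← ENNReal.ofReal_pow hR, ← ENNReal.ofReal_mul (by positivity)]
  congr 1
  rw [mul_pow]; ring

lemma volume_Pset_empty {n : ℕ} (hn : 0 < n) (w : Fin n → ℝ) (hw : ∀ i, 0 < w i) (R : ℝ) (hR : 0 ≤ R) :
    volume (Pset w R ∅) = ENNReal.ofReal ((∏ i, w i)⁻¹ * ((2 * R) ^ n / n.factorial)) := by
  have h1 : Pset w R ∅ = (fun z : Fin n → ℝ => fun i => w i * z i) ⁻¹' {z | ∑ i, |z i| ≤ R} := by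
    ext z
    have h2 : ∑ i, |w i * z i| = ∑ i, w i * |z i| :=
      Finset.sum_congr rfl fun i _ => by rw [abs_mul, abs_of_pos (hw i)]
    constructor
    · rintro ⟨h, _⟩
      show ∑ i, |w i * z i| ≤ R
      rw [h2]; exact h
    · intro h
      have h3 : ∑ i, |w i * z i| ≤ R := h
      rw [h2] at h3
      exact ⟨h3, fun i hi => absurd hi (Finset.notMem_empty i)⟩
  rw [h1, volume_diag w (fun i => (hw i).ne'), volume_ball n hn R hR,
    ← ENNReal.ofReal_mul (by positivity)]
  congr 3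
  exact Finset.prod_congr rfl fun i _ => abs_of_pos (hw i)

lemma volume_insert {n : ℕ} (w : Fin n → ℝ) (R : ℝ) (M : Finset (Fin n)) (i : Fin n) (hi : i ∉ M) :
    2 * volume (Pset w R (insert i M)) ≤ volume (Pset w R M) := by
  set d : Fin n → ℝ := fun j => if j = i then -1 else 1 with hd
  have hd0 : ∀ j, d j ≠ 0 := by intro j; simp only [hd]; split_ifs <;> norm_num
  have hdabs : ∀ j, |d j| = 1 := by intro j; simp only [hd]; split_ifs <;> norm_num
  set f : (Fin n → ℝ) → (Fin n → ℝ) := fun z j => d j * z j with hf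
  have hvol : volume (f ⁻¹' (Pset w R (insert i M))) = volume (Pset w R (insert i M)) := by
    rw [hf, volume_diag d hd0]
    simp [hdabs]
  have hfm : MeasurableSet (f ⁻¹' (Pset w R (insert i M))) := by
    apply (measurableSet_Pset w R _).preimage
    apply measurable_pi_lambda
    intro j
    exact (measurable_pi_apply j).const_mul _
  have hdisj : Disjoint (Pset w R (insert i M)) (f ⁻¹' (Pset w R (insert i M))) := by
    rw [Set.disjoint_left]
    rintro z ⟨_, h1⟩ ⟨_, h2⟩
    have h3 := h1 i (Finset.mem_insert_self i M)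
    have h4 := h2 i (Finset.mem_insert_self i M)
    simp only [hf, hd, if_true] at h4
    linarith
  have hsub : Pset w R (insert i M) ∪ f ⁻¹' (Pset w R (insert i M)) ⊆ Pset w R M := by
    rintro z (⟨h1, h2⟩ | ⟨h1, h2⟩)
    · exact ⟨h1, fun j hj => h2 j (Finset.mem_insert_of_mem hj)⟩
    · refine ⟨?_, fun j hj => ?_⟩
      · refine le_trans (le_of_eq ?_) h1
        refine Finset.sum_congr rfl fun j _ => ?_
        simp only [hf, abs_mul, hdabs, one_mul]
      · have := h2 j (Finset.mem_insert_of_mem hj)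
        have hji : j ≠ i := fun h => hi (h ▸ hj)
        simpa [hf, hd, hji] using this
  calc 2 * volume (Pset w R (insert i M))
      = volume (Pset w R (insert i M)) + volume (f ⁻¹' (Pset w R (insert i M))) := by
        rw [hvol, two_mul]
    _ = volume (Pset w R (insert i M) ∪ f ⁻¹' (Pset w R (insert i M))) :=
        (measure_union hdisj hfm).symm
    _ ≤ volume (Pset w R M) := measure_mono hsub

/-- **volume bound** -/
lemma volume_Pset_le {n : ℕ} (hn : 0 < n) (w : Fin n → ℝ) (hw : ∀ i, 0 < w i) (R : ℝ) (hR : 0 ≤ R)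
    (M : Finset (Fin n)) :
    volume (Pset w R M) ≤
      ENNReal.ofReal ((1 / 2) ^ M.card * ((∏ i, w i)⁻¹ * ((2 * R) ^ n / n.factorial))) := by
  induction M using Finset.induction_on with
  | empty => rw [volume_Pset_empty hn w hw R hR]; simp
  | insert i M hi ih =>
    have h := (volume_insert w R M i hi).trans ih
    rw [Finset.card_insert_of_notMem hi, pow_succ]
    have hprod : 0 ≤ (∏ i, w i)⁻¹ := inv_nonneg.2 (Finset.prod_nonneg fun i _ => (hw i).le)
    set c : ℝ := (1 / 2) ^ M.card * ((∏ i, w i)⁻¹ * ((2 * R) ^ n / n.factorial)) with hc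
    have hc0 : 0 ≤ c := by positivity
    have h2 : ENNReal.ofReal ((1 / 2) ^ M.card * (1 / 2) * ((∏ i, w i)⁻¹ * ((2 * R) ^ n / n.factorial))) =
        2⁻¹ * ENNReal.ofReal c := by
      rw [show (1 / 2 : ℝ) ^ M.card * (1 / 2) * ((∏ i, w i)⁻¹ * ((2 * R) ^ n / n.factorial)) = 2⁻¹ * c by
        rw [hc]; ring]
      rw [ENNReal.ofReal_mul (by norm_num), ENNReal.ofReal_inv_of_pos (by norm_num)]
      norm_num
    rw [h2]
    calc volume (Pset w R (insert i M)) = 2⁻¹ * (2 * volume (Pset w R (insert i M))) := by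
          rw [← mul_assoc, ENNReal.inv_mul_cancel (by norm_num) (by norm_num), one_mul]
      _ ≤ 2⁻¹ * ENNReal.ofReal c := by gcongr

end Pool.Agent.Helper99.SX
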