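import Pool.Agent.Helper99.SX.Coord
import Pool.Agent.Helper99.SX.Vol

/-! A net of step functions, and the covering of the difference sets by translates of cut
weighted cross-polytopes. -/

namespace Pool.Agent.Helper99.SX

open MeasureTheory Set Finset
open scoped ENNReal

/-- step function with jumps at `θ` -/
noncomputable def step {q m : ℕ} (θ : Fin q → Fin (m + 1)) (i : ℕ) : ℝ :=
  ((Finset.univ.filter fun k : Fin q => ((θ k : Fin (m + 1)) : ℕ) ≤ i).card : ℝ) / q

lemma card_floor (q : ℕ) (x : ℝ) (h0 : 0 ≤ x) (h1 : x ≤ q) :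
    (Finset.univ.filter fun k : Fin q => ((k : ℕ) : ℝ) + 1 ≤ x).card = ⌊x⌋₊ := by
  have hq : ⌊x⌋₊ ≤ q := by
    have := Nat.floor_le_floor h1
    simpa using this
  have h2 : (Finset.univ.filter fun k : Fin q => ((k : ℕ) : ℝ) + 1 ≤ x) =
      Finset.univ.filter fun k : Fin q => (k : ℕ) < ⌊x⌋₊ := by
    apply Finset.filter_congr
    intro k _
    rw [← Nat.succ_le_iff, Nat.le_floor_iff h0]
    push_cast
    rfl
  rw [h2]
  have h3 : ((Finset.univ.filter fun k : Fin q => (k : ℕ) < ⌊x⌋₊).map Fin.valEmbedding) =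
      Finset.range ⌊x⌋₊ := by
    ext j
    simp only [Finset.mem_map, Finset.mem_filter, Finset.mem_univ, true_and, Fin.valEmbedding_apply,
      Finset.mem_range]
    constructor
    · rintro ⟨k, hk, rfl⟩; exact hk
    · intro hj; exact ⟨⟨j, lt_of_lt_of_le hj hq⟩, hj, rfl⟩
  rw [← Finset.card_map Fin.valEmbedding, h3, Finset.card_range]

lemma exists_step (q m : ℕ) (hq : 0 < q) (g : ℕ → ℝ) (hg : ∀ i j, i ≤ j → j < m → g i ≤ g j)
    (h0 : ∀ i < m, 0 ≤ g i) (h1 : ∀ i < m, g i ≤ 1) :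
    ∃ θ : Fin q → Fin (m + 1), ∀ i < m, 0 ≤ g i - step θ i ∧ g i - step θ i ≤ 1 / q := by
  have hqr : (0 : ℝ) < q := by exact_mod_cast hq
  have hcard : ∀ k : Fin q, ((Finset.range m).filter fun i => (q : ℝ) * g i < ((k : ℕ) : ℝ) + 1).card < m + 1 := by
    intro k
    refine Nat.lt_succ_of_le ((Finset.card_filter_le _ _).trans ?_)
    simp
  refine ⟨fun k => ⟨_, hcard k⟩, fun i hi => ?_⟩
  have key : (Finset.univ.filter fun k : Fin q =>
      (((⟨((Finset.range m).filter fun i => (q : ℝ) * g i < ((k : ℕ) : ℝ) + 1).card, hcard k⟩ :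
        Fin (m + 1)) : ℕ)) ≤ i) =
      Finset.univ.filter fun k : Fin q => ((k : ℕ) : ℝ) + 1 ≤ (q : ℝ) * g i := by
    apply Finset.filter_congr
    intro k _
    constructor
    · intro h
      by_contra hcon
      push Not at hcon
      have hsub : Finset.range (i + 1) ⊆
          (Finset.range m).filter fun i => (q : ℝ) * g i < ((k : ℕ) : ℝ) + 1 := by
        intro j hj
        rw [Finset.mem_range] at hj
        rw [Finset.mem_filter, Finset.mem_range]
        refine ⟨by omega, lt_of_le_of_lt ?_ hcon⟩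
        exact mul_le_mul_of_nonneg_left (hg j i (by omega) hi) hqr.le
      have := Finset.card_le_card hsub
      rw [Finset.card_range] at this
      simp only at h
      omega
    · intro h
      have hsub : ((Finset.range m).filter fun i => (q : ℝ) * g i < ((k : ℕ) : ℝ) + 1) ⊆
          Finset.range i := by
        intro j hj
        rw [Finset.mem_filter, Finset.mem_range] at hj
        rw [Finset.mem_range]
        by_contra hcon
        push Not at hcon
        have := mul_le_mul_of_nonneg_left (hg i j hcon hj.1) hqr.le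
        linarith [hj.2]
      have := Finset.card_le_card hsub
      rw [Finset.card_range] at this
      exact this
  have hx0 : 0 ≤ (q : ℝ) * g i := mul_nonneg hqr.le (h0 i hi)
  have hx1 : (q : ℝ) * g i ≤ q := by nlinarith [h1 i hi]
  unfold step
  rw [key, card_floor q _ hx0 hx1]
  have hf1 := Nat.floor_le hx0
  have hf2 := Nat.lt_floor_add_one ((q : ℝ) * g i)
  constructor
  · rw [sub_nonneg, div_le_iff₀ hqr]; linarith
  · rw [sub_le_iff_le_add, ← add_div, le_div_iff₀ hqr]; linarith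

/-- sign of a coordinate under the flip `M` -/
def sg {n : ℕ} (M : Finset (Fin n)) (i : Fin n) : ℝ := if i ∈ M then -1 else 1

/-- barycentric weights -/
def Prob (n : ℕ) (l : ℕ → ℝ) : Prop := (∀ j, 0 ≤ l j) ∧ Lam l n = 1

/-- scaled differences of points of two placements -/
def Wset (n m : ℕ) (M : Finset (Fin n)) : Set (Fin n → ℝ) :=
  {w | ∃ l l' : ℕ → ℝ, Prob n l ∧ Prob n l' ∧
    (∀ i : Fin n, (i : ℕ) < m → w i = xi l i - sg M i * xi l' i) ∧
    (∀ i : Fin n, m ≤ (i : ℕ) → |w i| ≤ (1 / ((i : ℕ) + 2 : ℝ) - xi l i) + (1 / ((i : ℕ) + 2 : ℝ) - xi l' i))}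

/-- the weights of the cross-polytope -/
noncomputable def wt (m : ℕ) {n : ℕ} (i : Fin n) : ℝ := if (i : ℕ) < m then 1 else beta m i

/-- harmonic sum -/
noncomputable def Hs (m : ℕ) : ℝ := ∑ i ∈ range m, 1 / ((i : ℝ) + 2)

/-- radius -/
noncomputable def Rad (q m : ℕ) : ℝ := 2 + 3 / q * Hs m

/-- centre -/
noncomputable def ctr {q m n : ℕ} (M : Finset (Fin n)) (θ θ' : Fin q → Fin (m + 1)) (i : Fin n) : ℝ :=
  if (i : ℕ) < m then (step θ i - sg M i * step θ' i) / (((i : ℕ) : ℝ) + 2) +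
    (if i ∈ M then (3 : ℝ) / ((q : ℝ) * (((i : ℕ) : ℝ) + 2)) else 0) else 0

lemma Lam_mono (l : ℕ → ℝ) (hl : ∀ j, 0 ≤ l j) {i j : ℕ} (h : i ≤ j) : Lam l i ≤ Lam l j := by
  unfold Lam
  exact Finset.sum_le_sum_of_subset_of_nonneg (Finset.range_mono (by omega)) fun k _ _ => hl k

lemma Lam_nonneg (l : ℕ → ℝ) (hl : ∀ j, 0 ≤ l j) (i : ℕ) : 0 ≤ Lam l i :=
  Finset.sum_nonneg fun k _ => hl k

lemma Wset_subset (m k q : ℕ) (hq : 0 < q) (M : Finset (Fin (m + k))) (hM : ∀ i ∈ M, (i : ℕ) < m) :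
    Wset (m + k) m M ⊆ ⋃ θ : (Fin q → Fin (m + 1)) × (Fin q → Fin (m + 1)),
      (fun w => ctr M θ.1 θ.2 - w) ⁻¹' Pset (wt m) (Rad q m) M := by
  rintro w ⟨l, l', ⟨hl0, hl1⟩, ⟨hl0', hl1'⟩, hlow, htop⟩
  have hqr : (0 : ℝ) < q := by exact_mod_cast hq
  obtain ⟨θ, hθ⟩ := exists_step q m hq (fun i => Lam l (i + 1))
    (fun i j hij _ => Lam_mono l hl0 (by omega)) (fun i _ => Lam_nonneg l hl0 _)
    (fun i hi => hl1 ▸ Lam_mono l hl0 (by omega))
  obtain ⟨θ', hθ'⟩ := exists_step q m hq (fun i => Lam l' (i + 1))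
    (fun i j hij _ => Lam_mono l' hl0' (by omega)) (fun i _ => Lam_nonneg l' hl0' _)
    (fun i hi => hl1' ▸ Lam_mono l' hl0' (by omega))
  refine mem_iUnion.2 ⟨(θ, θ'), ?_⟩
  set z : Fin (m + k) → ℝ := ctr M θ θ' - w with hz
  show z ∈ Pset (wt m) (Rad q m) M
  -- low coordinates
  have hcase : ∀ i : Fin (m + k), (i : ℕ) < m →
      (i ∈ M → 0 < z i) ∧ |z i| ≤ l (i + 1) + l' (i + 1) + 3 / q * (1 / ((i : ℕ) + 2 : ℝ)) := by
    intro i hi
    obtain ⟨a1, a2⟩ := hθ i hi
    obtain ⟨b1, b2⟩ := hθ' i hi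
    have hi2 : (0 : ℝ) < (i : ℕ) + 2 := by positivity
    set s : ℝ := 1 / ((i : ℕ) + 2 : ℝ) with hs
    have hs0 : 0 < s := by positivity
    have hzi : z i = (step θ i - sg M i * step θ' i) * s + (if i ∈ M then 3 / q * s else 0) -
        (xi l i - sg M i * xi l' i) := by
      rw [hz, Pi.sub_apply, hlow i hi, ctr, if_pos hi, hs]
      congr 2
      · ring
      · split_ifs
        · field_simp
        · rfl
    have e1 : xi l i = Lam l ((i : ℕ) + 1) * s - l ((i : ℕ) + 1) := by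
      unfold xi; rw [hs]; ring
    have e2 : xi l' i = Lam l' ((i : ℕ) + 1) * s - l' ((i : ℕ) + 1) := by
      unfold xi; rw [hs]; ring
    have p1 : (Lam l ((i : ℕ) + 1) - step θ i) * s ≤ 1 / q * s := mul_le_mul_of_nonneg_right a2 hs0.le
    have p2 : 0 ≤ (Lam l ((i : ℕ) + 1) - step θ i) * s := mul_nonneg a1 hs0.le
    have p3 : (Lam l' ((i : ℕ) + 1) - step θ' i) * s ≤ 1 / q * s := mul_le_mul_of_nonneg_right b2 hs0.le
    have p4 : 0 ≤ (Lam l' ((i : ℕ) + 1) - step θ' i) * s := mul_nonneg b1 hs0.le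
    have p5 : 0 < 1 / q * s := by positivity
    have p6 : 3 / q * s = 3 * (1 / q * s) := by ring
    have n1 := hl0 ((i : ℕ) + 1)
    have n2 := hl0' ((i : ℕ) + 1)
    by_cases hiM : i ∈ M
    · have hsg : sg M i = -1 := by simp [sg, hiM]
      rw [hzi, hsg, if_pos hiM, e1, e2]
      constructor
      · intro _; nlinarith
      · rw [abs_le]; constructor <;> nlinarith
    · have hsg : sg M i = 1 := by simp [sg, hiM]
      rw [hzi, hsg, if_neg hiM, e1, e2]
      refine ⟨fun h => absurd h hiM, ?_⟩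
      rw [abs_le]; constructor <;> nlinarith
  have htopc : ∀ i : Fin (m + k), m ≤ (i : ℕ) →
      |z i| ≤ (1 / ((i : ℕ) + 2 : ℝ) - xi l i) + (1 / ((i : ℕ) + 2 : ℝ) - xi l' i) := by
    intro i hi
    have : z i = - w i := by
      rw [hz, Pi.sub_apply, ctr, if_neg (by omega), zero_sub]
    rw [this, abs_neg]
    exact htop i hi
  refine ⟨?_, fun i hi => (hcase i (hM i hi)).1 hi⟩
  -- the sum
  set F : ℕ → ℝ := fun i => if i < m then l (i + 1) + l' (i + 1) + 3 / q * (1 / ((i : ℝ) + 2)) else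
    beta m i * (1 / ((i : ℝ) + 2) - xi l i) + beta m i * (1 / ((i : ℝ) + 2) - xi l' i) with hF
  have hle : ∑ i, wt m i * |z i| ≤ ∑ i : Fin (m + k), F i := by
    refine Finset.sum_le_sum fun i _ => ?_
    simp only [wt, hF]
    split_ifs with h
    · rw [one_mul]; exact (hcase i h).2
    · rw [← mul_add]
      refine mul_le_mul_of_nonneg_left (htopc i (by omega)) ?_
      unfold beta; positivity
  refine hle.trans ?_
  rw [Fin.sum_univ_eq_sum_range F (m + k), Finset.sum_range_add]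
  have hs1 : ∑ i ∈ range m, F i = ∑ i ∈ range m, l (i + 1) + ∑ i ∈ range m, l' (i + 1) + 3 / q * Hs m := by
    unfold Hs
    rw [Finset.mul_sum, ← Finset.sum_add_distrib, ← Finset.sum_add_distrib]
    refine Finset.sum_congr rfl fun i hi => ?_
    simp only [hF, if_pos (Finset.mem_range.1 hi)]
  have hs2 : ∑ i ∈ range k, F (m + i) = (1 - Lam l m) + (1 - Lam l' m) := by
    rw [← top_sum l m k hl1, ← top_sum l' m k hl1', ← Finset.sum_add_distrib]
    refine Finset.sum_congr rfl fun i _ => ?_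
    simp only [hF, if_neg (by omega : ¬ m + i < m)]
  have hL : ∑ i ∈ range m, l (i + 1) = Lam l m - l 0 := by
    unfold Lam; rw [Finset.sum_range_succ']; ring
  have hL' : ∑ i ∈ range m, l' (i + 1) = Lam l' m - l' 0 := by
    unfold Lam; rw [Finset.sum_range_succ']; ring
  rw [hs1, hs2, hL, hL']
  unfold Rad
  linarith [hl0 0, hl0' 0]

lemma beta_pos (m i : ℕ) : 0 < beta m i := by unfold beta; positivity

lemma wt_pos (m : ℕ) {n : ℕ} (i : Fin n) : 0 < wt m i := by
  unfold wt; split_ifs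
  · norm_num
  · exact beta_pos m i

lemma Hs_nonneg (m : ℕ) : 0 ≤ Hs m := Finset.sum_nonneg fun i _ => by positivity

lemma Rad_nonneg (q m : ℕ) : 0 ≤ Rad q m := by
  unfold Rad; have := Hs_nonneg m; positivity

/-- **volume of the difference sets** -/
lemma volume_Wset_le (m k q : ℕ) (hn : 0 < m + k) (hq : 0 < q) (M : Finset (Fin (m + k)))
    (hM : ∀ i ∈ M, (i : ℕ) < m) :
    volume (Wset (m + k) m M) ≤ ENNReal.ofReal (((m : ℝ) + 1) ^ (2 * q) * ((1 / 2) ^ M.card *
      ((∏ i : Fin (m + k), wt m i)⁻¹ * ((2 * Rad q m) ^ (m + k) / (m + k).factorial)))) := by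
  have hP := volume_Pset_le hn (wt m) (fun i => wt_pos m i) (Rad q m) (Rad_nonneg q m) M
  set c : ℝ := (1 / 2) ^ M.card *
      ((∏ i : Fin (m + k), wt m i)⁻¹ * ((2 * Rad q m) ^ (m + k) / (m + k).factorial)) with hc
  calc volume (Wset (m + k) m M)
      ≤ volume (⋃ θ : (Fin q → Fin (m + 1)) × (Fin q → Fin (m + 1)),
          (fun w => ctr M θ.1 θ.2 - w) ⁻¹' Pset (wt m) (Rad q m) M) :=
        measure_mono (Wset_subset m k q hq M hM)
    _ ≤ ∑ θ : (Fin q → Fin (m + 1)) × (Fin q → Fin (m + 1)),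
          volume ((fun w => ctr M θ.1 θ.2 - w) ⁻¹' Pset (wt m) (Rad q m) M) :=
        measure_iUnion_fintype_le _ _
    _ = ∑ θ : (Fin q → Fin (m + 1)) × (Fin q → Fin (m + 1)), volume (Pset (wt m) (Rad q m) M) := by
        refine Finset.sum_congr rfl fun θ _ => ?_
        exact (Measure.measurePreserving_sub_left volume (ctr M θ.1 θ.2)).measure_preimage
          (measurableSet_Pset _ _ _).nullMeasurableSet
    _ = (((m + 1) ^ (2 * q) : ℕ) : ℝ≥0∞) * volume (Pset (wt m) (Rad q m) M) := by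
        rw [Finset.sum_const, nsmul_eq_mul]
        congr 2
        rw [Finset.card_univ, Fintype.card_prod, Fintype.card_fun, Fintype.card_fin, Fintype.card_fin]
        rw [two_mul, pow_add]
    _ ≤ (((m + 1) ^ (2 * q) : ℕ) : ℝ≥0∞) * ENNReal.ofReal c := by gcongr
    _ = ENNReal.ofReal (((m : ℝ) + 1) ^ (2 * q) * c) := by
        rw [ENNReal.ofReal_mul (p := ((m : ℝ) + 1) ^ (2 * q)) (q := c) (by positivity)]
        congr 1
        rw [← ENNReal.ofReal_natCast]
        push_cast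
        rfl

end Pool.Agent.Helper99.SX
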