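import Pool.Agent.Helper99.SX.Greedy

/-! Numerical estimates. -/

namespace Pool.Agent.Helper99.SX

open Finset

/-- product of the weights -/
noncomputable def Wp (m k : ℕ) : ℝ := ∏ i ∈ range k, beta m (m + i)

lemma prod_wt (m k : ℕ) : ∏ i : Fin (m + k), wt m i = Wp m k := by
  set f : ℕ → ℝ := fun i => if i < m then 1 else beta m i with hf
  have h : ∀ i : Fin (m + k), wt m i = f i := fun i => rfl
  rw [Finset.prod_congr rfl fun i _ => h i, Fin.prod_univ_eq_prod_range f (m + k),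
    Finset.prod_range_add]
  have h1 : ∏ i ∈ range m, f i = 1 := by
    apply Finset.prod_eq_one
    intro i hi
    simp only [hf, if_pos (Finset.mem_range.1 hi)]
  rw [h1, one_mul]
  unfold Wp
  refine Finset.prod_congr rfl fun i _ => ?_
  simp only [hf, if_neg (by omega : ¬ m + i < m)]

lemma Wp_pos (m k : ℕ) : 0 < Wp m k := Finset.prod_pos fun i _ => beta_pos m _

lemma exp_one_le_pow (N : ℕ) (hN : 0 < N) : Real.exp 1 ≤ (((N : ℝ) + 1) / N) ^ (N + 1) := by
  have hN' : (0 : ℝ) < N := by exact_mod_cast hN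
  have hx : (0 : ℝ) < ((N : ℝ) + 1) / N := by positivity
  have h1 := Real.one_sub_inv_le_log_of_pos hx
  have h2 : 1 - (((N : ℝ) + 1) / N)⁻¹ = 1 / ((N : ℝ) + 1) := by
    rw [inv_div]; field_simp; ring
  rw [h2] at h1
  rw [← Real.exp_log hx, ← Real.exp_nat_mul]
  apply Real.exp_le_exp.2
  push_cast
  calc (1 : ℝ) = ((N : ℝ) + 1) * (1 / ((N : ℝ) + 1)) := by field_simp
    _ ≤ ((N : ℝ) + 1) * Real.log (((N : ℝ) + 1) / N) := mul_le_mul_of_nonneg_left h1 (by positivity)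

lemma Wp_ge (m k : ℕ) :
    Real.exp k * (((m : ℝ) + 1) / (m + k + 1)) ^ (m + k + 1) ≤ Wp m k := by
  induction k with
  | zero =>
    have : (m : ℝ) + 1 ≠ 0 := by positivity
    simp [Wp, div_self this]
  | succ k ih =>
    have hW : Wp m (k + 1) = Wp m k * (((m : ℝ) + 1) / (m + k + 1)) := by
      unfold Wp
      rw [Finset.prod_range_succ]
      unfold beta
      push_cast
      rfl
    rw [hW]
    have hpos : (0 : ℝ) < (m : ℝ) + k + 1 := by positivity
    have hpos2 : (0 : ℝ) < (m : ℝ) + k + 1 + 1 := by positivity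
    have hm : (0 : ℝ) < (m : ℝ) + 1 := by positivity
    have he := exp_one_le_pow (m + k + 1) (by omega)
    push_cast at he
    have key : Real.exp 1 * (((m : ℝ) + 1) / (m + k + 1 + 1)) ^ (m + k + 1 + 1) ≤
        (((m : ℝ) + 1) / (m + k + 1)) ^ (m + k + 1 + 1) := by
      calc Real.exp 1 * (((m : ℝ) + 1) / (m + k + 1 + 1)) ^ (m + k + 1 + 1)
          ≤ (((m : ℝ) + k + 1 + 1) / (m + k + 1)) ^ (m + k + 1 + 1) *
            (((m : ℝ) + 1) / (m + k + 1 + 1)) ^ (m + k + 1 + 1) :=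
            mul_le_mul_of_nonneg_right he (by positivity)
        _ = (((m : ℝ) + 1) / (m + k + 1)) ^ (m + k + 1 + 1) := by
            rw [← mul_pow]
            congr 1
            field_simp
    calc Real.exp ((k + 1 : ℕ) : ℝ) * (((m : ℝ) + 1) / (m + (k + 1 : ℕ) + 1)) ^ (m + (k + 1) + 1)
        = Real.exp k * (Real.exp 1 * (((m : ℝ) + 1) / (m + k + 1 + 1)) ^ (m + k + 1 + 1)) := by
          push_cast
          rw [Real.exp_add]
          rw [show (m : ℝ) + (k + 1) + 1 = m + k + 1 + 1 by ring,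
            show m + (k + 1) + 1 = m + k + 1 + 1 by ring]
          ring
      _ ≤ Real.exp k * (((m : ℝ) + 1) / (m + k + 1)) ^ (m + k + 1 + 1) :=
          mul_le_mul_of_nonneg_left key (Real.exp_nonneg _)
      _ = (Real.exp k * (((m : ℝ) + 1) / (m + k + 1)) ^ (m + k + 1)) * (((m : ℝ) + 1) / (m + k + 1)) := by
          rw [pow_succ _ (m + k + 1)]; ring
      _ ≤ Wp m k * (((m : ℝ) + 1) / (m + k + 1)) := mul_le_mul_of_nonneg_right ih (by positivity)

lemma pow_le_four (n : ℕ) (hn : 0 < n) : (((n : ℝ) + 1) / n) ^ (n + 1) ≤ 4 := by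
  -- decreasing in `n`
  induction n, hn using Nat.le_induction with
  | base => norm_num
  | succ n hn ih =>
    have hn' : (1 : ℝ) ≤ n := by exact_mod_cast hn
    refine le_trans ?_ ih
    -- ((n+2)/(n+1))^(n+2) ≤ ((n+1)/n)^(n+1)
    push_cast
    have hB : 1 + ((n : ℝ) + 2) * (1 / (n * (n + 2))) ≤ (1 + 1 / ((n : ℝ) * (n + 2))) ^ (n + 2) := by
      have := one_add_mul_le_pow (a := 1 / ((n : ℝ) * (n + 2))) (by
        have : (0 : ℝ) ≤ 1 / ((n : ℝ) * (n + 2)) := by positivity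
        linarith) (n + 2)
      push_cast at this
      exact this
    have h1 : 1 + ((n : ℝ) + 2) * (1 / (n * (n + 2))) = ((n : ℝ) + 1) / n := by
      field_simp
    have h2 : 1 + 1 / ((n : ℝ) * (n + 2)) = (((n : ℝ) + 1) / n) * (((n : ℝ) + 1) / (n + 2)) := by
      field_simp; ring
    rw [h1, h2, mul_pow] at hB
    have hpos : (0 : ℝ) < ((n : ℝ) + 1) / (n + 2) := by positivity
    have hx : (0 : ℝ) < ((n : ℝ) + 1) / n := by positivity
    -- x ≤ x^(n+2) y^(n+2)  so  1/y^(n+2) ≤ x^(n+1)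
    have h3 : 1 ≤ (((n : ℝ) + 1) / n) ^ (n + 1) * (((n : ℝ) + 1) / (n + 2)) ^ (n + 2) := by
      have h4 : ((n : ℝ) + 1) / n * 1 ≤ ((n : ℝ) + 1) / n *
          ((((n : ℝ) + 1) / n) ^ (n + 1) * (((n : ℝ) + 1) / (n + 2)) ^ (n + 2)) := by
        calc ((n : ℝ) + 1) / n * 1 = ((n : ℝ) + 1) / n := mul_one _
          _ ≤ (((n : ℝ) + 1) / n) ^ (n + 2) * (((n : ℝ) + 1) / (n + 2)) ^ (n + 2) := hB
          _ = _ := by rw [pow_succ _ (n + 1)]; ring
      exact le_of_mul_le_mul_left h4 hx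
    have h5 : (((n : ℝ) + 1 + 1) / (n + 1)) ^ (n + 1 + 1) * (((n : ℝ) + 1) / (n + 2)) ^ (n + 2) = 1 := by
      rw [show n + 1 + 1 = n + 2 from rfl, ← mul_pow]
      have : ((n : ℝ) + 1 + 1) / (n + 1) * ((n + 1) / (n + 2)) = 1 := by
        field_simp; ring
      rw [this, one_pow]
    have hy : (0 : ℝ) < (((n : ℝ) + 1) / (n + 2)) ^ (n + 2) := by positivity
    refine le_of_mul_le_mul_right ?_ hy
    rw [h5]
    exact h3

/-- `L = log (3/2)` -/
noncomputable def LL : ℝ := Real.log (3 / 2)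

lemma LL_pos : 0 < LL := Real.log_pos (by norm_num)
lemma LL_le : LL ≤ 1 / 2 := by
  unfold LL
  have := Real.log_le_sub_one_of_pos (by norm_num : (0 : ℝ) < 3 / 2)
  linarith

/-- choice of `m` and the resulting factor -/
lemma factor_bound (n : ℕ) (hn : 0 < n) : ∃ m k : ℕ, m + k = n ∧
    (3 / 2 : ℝ) ^ m * (Wp m k)⁻¹ ≤ 6 * (1 + LL) ^ n := by
  have hL := LL_pos
  have hL2 := LL_le
  have hn' : (0 : ℝ) < n := by exact_mod_cast hn
  have hA : (0 : ℝ) < 1 + LL := by linarith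
  set m : ℕ := ⌊(n : ℝ) / (1 + LL)⌋₊ with hm
  have hm1 : (m : ℝ) ≤ (n : ℝ) / (1 + LL) := Nat.floor_le (by positivity)
  have hm2 : (n : ℝ) / (1 + LL) < m + 1 := Nat.lt_floor_add_one _
  have hmn : m ≤ n := by
    have h1 : (n : ℝ) / (1 + LL) ≤ n := by
      rw [div_le_iff₀ hA]; nlinarith
    exact_mod_cast hm1.trans h1
  refine ⟨m, n - m, by omega, ?_⟩
  obtain ⟨k, hk⟩ := Nat.exists_eq_add_of_le hmn
  have hk' : n - m = k := by omega
  rw [hk']
  have hW := Wp_ge m k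
  have hWp := Wp_pos m k
  have hnk : (n : ℝ) = m + k := by rw [hk]; push_cast; ring
  rw [le_div_iff₀ hA] at hm1
  rw [div_lt_iff₀ hA] at hm2
  -- lower bound of W
  set g : ℝ := Real.exp k * (((m : ℝ) + 1) / (m + k + 1)) ^ (m + k + 1) with hg
  have hgpos : 0 < g := by rw [hg]; positivity
  have h1 : (Wp m k)⁻¹ ≤ g⁻¹ := inv_anti₀ hgpos hW
  have h2 : (3 / 2 : ℝ) ^ m = Real.exp (m * LL) := by
    unfold LL
    rw [Real.exp_nat_mul, Real.exp_log (by norm_num)]
  have h3 : g⁻¹ = Real.exp (-(k : ℝ)) * (((m : ℝ) + k + 1) / (m + 1)) ^ (m + k + 1) := by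
    rw [hg, mul_inv, ← Real.exp_neg, ← inv_pow, inv_div]
  have h4 : ((m : ℝ) + k + 1) / (m + 1) ≤ (1 + LL) * (((n : ℝ) + 1) / n) := by
    rw [div_le_iff₀ (by positivity), ← hnk]
    have : (1 + LL) * (((n : ℝ) + 1) / n) * (m + 1) = (((m : ℝ) + 1) * (1 + LL)) * (((n : ℝ) + 1) / n) := by ring
    rw [this]
    calc (n : ℝ) + 1 = n * (((n : ℝ) + 1) / n) := by field_simp
      _ ≤ (((m : ℝ) + 1) * (1 + LL)) * (((n : ℝ) + 1) / n) :=
          mul_le_mul_of_nonneg_right hm2.le (by positivity)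
  have h5 : (((m : ℝ) + k + 1) / (m + 1)) ^ (m + k + 1) ≤ (1 + LL) ^ (n + 1) * 4 := by
    calc (((m : ℝ) + k + 1) / (m + 1)) ^ (m + k + 1)
        ≤ ((1 + LL) * (((n : ℝ) + 1) / n)) ^ (m + k + 1) := pow_le_pow_left₀ (by positivity) h4 _
      _ = (1 + LL) ^ (n + 1) * (((n : ℝ) + 1) / n) ^ (n + 1) := by rw [← hk, mul_pow]
      _ ≤ (1 + LL) ^ (n + 1) * 4 := mul_le_mul_of_nonneg_left (pow_le_four n hn) (by positivity)
  calc (3 / 2 : ℝ) ^ m * (Wp m k)⁻¹ ≤ Real.exp (m * LL) * g⁻¹ := by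
        rw [h2]; exact mul_le_mul_of_nonneg_left h1 (Real.exp_nonneg _)
    _ = Real.exp (m * LL - k) * (((m : ℝ) + k + 1) / (m + 1)) ^ (m + k + 1) := by
        rw [h3, sub_eq_add_neg, Real.exp_add]; ring
    _ ≤ 1 * ((1 + LL) ^ (n + 1) * 4) := by
        refine mul_le_mul ?_ h5 (by positivity) zero_le_one
        rw [Real.exp_le_one_iff]
        nlinarith
    _ = (4 * (1 + LL)) * (1 + LL) ^ n := by rw [pow_succ]; ring
    _ ≤ 6 * (1 + LL) ^ n := mul_le_mul_of_nonneg_right (by linarith) (by positivity)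

lemma Hs_le_log (n : ℕ) : Hs n ≤ Real.log ((n : ℝ) + 1) := by
  induction n with
  | zero => simp [Hs]
  | succ n ih =>
    unfold Hs at ih ⊢
    rw [Finset.sum_range_succ]
    have hx : (0 : ℝ) < ((n : ℝ) + 2) / (n + 1) := by positivity
    have h1 := Real.one_sub_inv_le_log_of_pos hx
    rw [inv_div, Real.log_div (by positivity) (by positivity)] at h1
    have h2 : 1 - ((n : ℝ) + 1) / (n + 2) = 1 / (n + 2) := by field_simp; ring
    rw [h2] at h1
    push_cast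
    rw [show (n : ℝ) + 1 + 1 = n + 2 by ring]
    linarith

end Pool.Agent.Helper99.SX
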