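import Pool.Agent.Helper38.SX.Hartley

/-! The orthogonal matrix with entries `cas (2 π a i / n) / √n`. -/

namespace Pool.Agent.Helper99.SX

open Finset Matrix
open Pool.Agent.Helper38.SX (cas abs_cas_le hartley)

/-- flat orthogonal matrix -/
noncomputable def U (n : ℕ) : Matrix (Fin n) (Fin n) ℝ :=
  fun a i => cas (2 * Real.pi * ((a : ℕ) : ℝ) / n * ((i : ℕ) : ℝ)) / Real.sqrt n

lemma U_mul_transpose (n : ℕ) (hn : 0 < n) : U n * (U n)ᵀ = 1 := by
  ext a a'
  rw [Matrix.mul_apply]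
  simp only [Matrix.transpose_apply, U]
  have h := hartley n hn a a'
  rw [Finset.sum_range] at h
  have hs : Real.sqrt n * Real.sqrt n = n := Real.mul_self_sqrt (by positivity)
  have hn0 : (n : ℝ) ≠ 0 := by positivity
  calc ∑ j : Fin n, cas (2 * Real.pi * ((a : ℕ) : ℝ) / n * ((j : ℕ) : ℝ)) / Real.sqrt n *
        (cas (2 * Real.pi * ((a' : ℕ) : ℝ) / n * ((j : ℕ) : ℝ)) / Real.sqrt n)
      = (∑ j : Fin n, cas (2 * Real.pi * ((a : ℕ) : ℝ) / n * ((j : ℕ) : ℝ)) *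
        cas (2 * Real.pi * ((a' : ℕ) : ℝ) / n * ((j : ℕ) : ℝ))) / n := by
        rw [Finset.sum_div]
        refine Finset.sum_congr rfl fun j _ => ?_
        rw [div_mul_div_comm, hs]
    _ = (1 : Matrix (Fin n) (Fin n) ℝ) a a' := by
        rw [h, Matrix.one_apply]
        split_ifs <;> simp [hn0]

lemma transpose_U_mul (n : ℕ) (hn : 0 < n) : (U n)ᵀ * U n = 1 :=
  mul_eq_one_comm.1 (U_mul_transpose n hn)

lemma abs_U_le (n : ℕ) (a i : Fin n) : |U n a i| ≤ Real.sqrt (2 / n) := by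
  unfold U
  rw [abs_div, abs_of_nonneg (Real.sqrt_nonneg _), Real.sqrt_div (by norm_num)]
  exact div_le_div_of_nonneg_right (abs_cas_le _) (Real.sqrt_nonneg _)

lemma det_U_sq (n : ℕ) (hn : 0 < n) : (U n).det ^ 2 = 1 := by
  have h := congrArg Matrix.det (U_mul_transpose n hn)
  rw [Matrix.det_mul, Matrix.det_transpose, Matrix.det_one] at h
  rw [sq, h]

lemma abs_det_U (n : ℕ) (hn : 0 < n) : |(U n).det| = 1 := by
  have h := det_U_sq n hn
  have h2 : |(U n).det| ^ 2 = 1 := by rw [sq_abs, h]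
  exact (pow_eq_one_iff_of_nonneg (abs_nonneg _) two_ne_zero).1 h2

/-- the matrix `U` preserves the sum of squares -/
lemma sum_sq_U (n : ℕ) (hn : 0 < n) (y : Fin n → ℝ) :
    ∑ a, ((U n).mulVec y a) ^ 2 = ∑ i, y i ^ 2 := by
  have h1 : (U n).mulVec y ⬝ᵥ (U n).mulVec y = y ⬝ᵥ y := by
    rw [Matrix.dotProduct_mulVec, Matrix.vecMul_mulVec, transpose_U_mul n hn, Matrix.vecMul_one]
  simpa [dotProduct, sq] using h1

lemma U_inj (n : ℕ) (hn : 0 < n) {y z : Fin n → ℝ} (h : (U n).mulVec y = (U n).mulVec z) : y = z := by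
  have := congrArg ((U n)ᵀ).mulVec h
  simpa [Matrix.mulVec_mulVec, transpose_U_mul n hn] using this

end Pool.Agent.Helper99.SX
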