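import Pool.Agent.Helper99.SX.Net
import Pool.Agent.Helper99.SX.Orth

/-! Placements of the simplex: flips, vertices, distances, position inside the cube, disjointness. -/

namespace Pool.Agent.Helper99.SX

open MeasureTheory Set Finset
open scoped ENNReal symmDiff

/-- weights of a vertex -/
noncomputable def ev (a : ℕ) : ℕ → ℝ := fun j => if j = a then 1 else 0

/-- centre coordinate -/
noncomputable def cen (m i : ℕ) : ℝ := if i < m then 0 else 1 / ((i : ℝ) + 2)

/-- point with barycentric weights `l` of the simplex flipped by `F` -/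
noncomputable def pt (n m : ℕ) (F : Finset (Fin n)) (l : ℕ → ℝ) (i : Fin n) : ℝ :=
  sg F i * (Real.sqrt (bsq i) * (xi l i - cen m i))

/-- vertices in the cube -/
noncomputable def vtx (n m : ℕ) (F : Finset (Fin n)) (x : Fin n → ℝ) (a : Fin (n + 1)) :
    EuclideanSpace ℝ (Fin n) :=
  WithLp.toLp 2 (x + (U n).mulVec (pt n m F (ev a)))

lemma sg_sq {n : ℕ} (F : Finset (Fin n)) (i : Fin n) : sg F i * sg F i = 1 := by
  unfold sg; split_ifs <;> norm_num

lemma abs_sg {n : ℕ} (F : Finset (Fin n)) (i : Fin n) : |sg F i| = 1 := by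
  unfold sg; split_ifs <;> norm_num

lemma bsq_pos (i : ℕ) : 0 < bsq i := by unfold bsq; positivity

lemma bsq_le_one (i : ℕ) : bsq i ≤ 1 := by
  unfold bsq
  rw [div_le_one (by positivity)]
  have : (0 : ℝ) ≤ i := Nat.cast_nonneg i
  linarith

lemma xi_sub (l l' : ℕ → ℝ) (i : ℕ) : xi (fun j => l j - l' j) i = xi l i - xi l' i := by
  unfold xi Lam
  rw [Finset.sum_sub_distrib]; ring

lemma Lam_ev (a i : ℕ) : Lam (ev a) i = if a ≤ i then 1 else 0 := by
  unfold Lam ev
  rw [Finset.sum_ite_eq' (range (i + 1)) a]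
  simp

lemma sum_sq_pt_sub (n m : ℕ) (F : Finset (Fin n)) (l l' : ℕ → ℝ) (h : Lam l n = Lam l' n) :
    ∑ i, (pt n m F l i - pt n m F l' i) ^ 2 = (∑ j ∈ range (n + 1), (l j - l' j) ^ 2) / 2 := by
  have h1 : ∀ i : Fin n, (pt n m F l i - pt n m F l' i) ^ 2 =
      bsq i * (xi (fun j => l j - l' j) i) ^ 2 := by
    intro i
    rw [xi_sub]
    have : pt n m F l i - pt n m F l' i = sg F i * (Real.sqrt (bsq i) * (xi l i - xi l' i)) := by
      unfold pt; ring
    rw [this, mul_pow, mul_pow, Real.sq_sqrt (bsq_pos i).le, sq (sg F i), sg_sq, one_mul]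
  rw [Finset.sum_congr rfl fun i _ => h1 i,
    Fin.sum_univ_eq_sum_range (fun i => bsq i * (xi (fun j => l j - l' j) i) ^ 2) n, quad]
  have h2 : Lam (fun j => l j - l' j) n = 0 := by
    unfold Lam at h ⊢
    rw [Finset.sum_sub_distrib, h, sub_self]
  rw [h2]; simp

lemma sum_ev_sub_sq (n : ℕ) (a b : Fin (n + 1)) (hab : a ≠ b) :
    ∑ j ∈ range (n + 1), (ev a j - ev b j) ^ 2 = 2 := by
  have h1 : ∀ j ∈ range (n + 1), (ev a j - ev b j) ^ 2 = ev a j + ev b j := by
    intro j _
    unfold ev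
    have hne : (a : ℕ) ≠ b := fun h => hab (Fin.ext h)
    by_cases h1 : j = a
    · have h2 : j ≠ b := fun h => hne (h1 ▸ h)
      simp [h1, hne]
    · by_cases h2 : j = b
      · simp [h2, hne.symm]
      · simp [h1, h2]
  rw [Finset.sum_congr rfl h1, Finset.sum_add_distrib]
  have h2 := Lam_ev a n
  have h3 := Lam_ev b n
  unfold Lam at h2 h3
  rw [h2, h3, if_pos (Nat.lt_succ_iff.1 a.2), if_pos (Nat.lt_succ_iff.1 b.2)]
  norm_num

lemma dist_vtx (n m : ℕ) (hn : 0 < n) (F : Finset (Fin n)) (x : Fin n → ℝ) (a b : Fin (n + 1))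
    (hab : a ≠ b) : dist (vtx n m F x a) (vtx n m F x b) = 1 := by
  rw [EuclideanSpace.dist_eq]
  have h1 : ∑ i, dist ((vtx n m F x a) i) ((vtx n m F x b) i) ^ 2 = 1 := by
    have h2 : ∀ i, dist ((vtx n m F x a) i) ((vtx n m F x b) i) ^ 2 =
        ((U n).mulVec (fun i => pt n m F (ev a) i - pt n m F (ev b) i) i) ^ 2 := by
      intro i
      have h3 : (fun i => pt n m F (ev a) i - pt n m F (ev b) i) = pt n m F (ev a) - pt n m F (ev b) := rfl
      rw [h3, Matrix.mulVec_sub]
      simp only [vtx, Real.dist_eq, sq_abs, Pi.add_apply, Pi.sub_apply]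
      ring
    rw [Finset.sum_congr rfl fun i _ => h2 i, sum_sq_U n hn, sum_sq_pt_sub n m F (ev a) (ev b),
      sum_ev_sub_sq n a b hab]
    · norm_num
    · rw [Lam_ev, Lam_ev, if_pos (Nat.lt_succ_iff.1 a.2), if_pos (Nat.lt_succ_iff.1 b.2)]
  rw [h1, Real.sqrt_one]

/-- weights of a convex combination of vertices -/
noncomputable def comb {n : ℕ} (w : Fin (n + 1) → ℝ) : ℕ → ℝ := fun j => ∑ a : Fin (n + 1), w a * ev a j

lemma Lam_comb {n : ℕ} (w : Fin (n + 1) → ℝ) (i : ℕ) :
    Lam (comb w) i = ∑ a : Fin (n + 1), w a * Lam (ev a) i := by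
  unfold Lam comb
  rw [Finset.sum_comm]
  exact Finset.sum_congr rfl fun a _ => by rw [Finset.mul_sum]

lemma xi_comb {n : ℕ} (w : Fin (n + 1) → ℝ) (i : ℕ) :
    xi (comb w) i = ∑ a : Fin (n + 1), w a * xi (ev a) i := by
  unfold xi
  rw [Lam_comb, Finset.sum_div]
  unfold comb
  rw [← Finset.sum_sub_distrib]
  exact Finset.sum_congr rfl fun a _ => by ring

lemma mem_hull (n m : ℕ) (F : Finset (Fin n)) (x : Fin n → ℝ) (z : EuclideanSpace ℝ (Fin n))
    (hz : z ∈ convexHull ℝ (range (vtx n m F x))) :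
    ∃ l : ℕ → ℝ, Prob n l ∧ z.ofLp = x + (U n).mulVec (pt n m F l) := by
  rw [convexHull_range_eq_exists_affineCombination] at hz
  obtain ⟨s, w, hw0, hw1, hz⟩ := hz
  rw [Finset.affineCombination_eq_linear_combination _ _ _ hw1] at hz
  set w' : Fin (n + 1) → ℝ := fun a => if a ∈ s then w a else 0 with hw'
  have hw0' : ∀ a, 0 ≤ w' a := by
    intro a; simp only [hw']; split_ifs with h; exacts [hw0 a h, le_rfl]
  have hw1' : ∑ a, w' a = 1 := by simpa [hw'] using hw1
  have hz' : z = ∑ a, w' a • vtx n m F x a := by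
    rw [← hz]
    simp only [hw', ite_smul, zero_smul]
    simp
  refine ⟨comb w', ⟨?_, ?_⟩, ?_⟩
  · intro j
    exact Finset.sum_nonneg fun a _ => mul_nonneg (hw0' a) (by unfold ev; split_ifs <;> norm_num)
  · rw [Lam_comb, ← hw1']
    refine Finset.sum_congr rfl fun a _ => ?_
    rw [Lam_ev, if_pos (Nat.lt_succ_iff.1 a.2), mul_one]
  · have hpt : pt n m F (comb w') = ∑ a, w' a • pt n m F (ev a) := by
      funext i
      rw [Finset.sum_apply]
      simp only [Pi.smul_apply, smul_eq_mul]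
      unfold pt
      rw [xi_comb]
      have h1 : ∑ a, w' a * (sg F i * (Real.sqrt (bsq i) * (xi (ev a) i - cen m i))) =
          sg F i * (Real.sqrt (bsq i) * (∑ a, w' a * xi (ev a) i - (∑ a, w' a) * cen m i)) := by
        rw [Finset.sum_mul, ← Finset.sum_sub_distrib, Finset.mul_sum, Finset.mul_sum]
        exact Finset.sum_congr rfl fun a _ => by ring
      rw [h1, hw1', one_mul]
    rw [hpt, Matrix.mulVec_sum, hz']
    funext i
    simp only [WithLp.ofLp_sum, WithLp.ofLp_smul, Finset.sum_apply, Pi.smul_apply, smul_eq_mul,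
      Pi.add_apply, vtx, Matrix.mulVec_smul]
    simp_rw [mul_add, Finset.sum_add_distrib, ← Finset.sum_mul, hw1', one_mul]

/-- radius of all placements in the sup norm -/
noncomputable def rho (n : ℕ) : ℝ := Real.sqrt (2 / n) * (1 + Hs n)

lemma abs_xi_ev_le (m a i : ℕ) : |xi (ev a) i - cen m i| ≤ 1 / ((i : ℝ) + 2) + ev a (i + 1) := by
  have hi : (0 : ℝ) < 1 / ((i : ℝ) + 2) := by positivity
  have hi1 : 1 / ((i : ℝ) + 2) ≤ 1 := by
    rw [div_le_one (by positivity)]
    have : (0 : ℝ) ≤ i := Nat.cast_nonneg i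
    linarith
  unfold xi cen
  rw [Lam_ev]
  unfold ev
  by_cases h1 : i + 1 = a
  · rw [if_pos h1, if_pos h1.ge]
    split_ifs <;> (rw [abs_le]; constructor <;> linarith)
  · rw [if_neg h1]
    split_ifs <;> (rw [abs_le]; constructor <;> first | linarith | (simp; done) | (simp; positivity))

lemma sum_abs_pt_le (n m : ℕ) (F : Finset (Fin n)) (a : ℕ) :
    ∑ i, |pt n m F (ev a) i| ≤ 1 + Hs n := by
  have h1 : ∀ i : Fin n, |pt n m F (ev a) i| ≤ 1 / (((i : ℕ) : ℝ) + 2) + ev a ((i : ℕ) + 1) := by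
    intro i
    unfold pt
    rw [abs_mul, abs_sg, one_mul, abs_mul, abs_of_nonneg (Real.sqrt_nonneg _)]
    have h2 : Real.sqrt (bsq i) ≤ 1 := by
      rw [Real.sqrt_le_one]; exact bsq_le_one i
    calc Real.sqrt (bsq i) * |xi (ev a) i - cen m i| ≤ 1 * |xi (ev a) i - cen m i| :=
          mul_le_mul_of_nonneg_right h2 (abs_nonneg _)
      _ = |xi (ev a) i - cen m i| := one_mul _
      _ ≤ _ := abs_xi_ev_le m a i
  calc ∑ i, |pt n m F (ev a) i| ≤ ∑ i : Fin n, (1 / (((i : ℕ) : ℝ) + 2) + ev a ((i : ℕ) + 1)) :=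
        Finset.sum_le_sum fun i _ => h1 i
    _ = Hs n + ∑ i ∈ range n, ev a (i + 1) := by
        rw [Finset.sum_add_distrib, Fin.sum_univ_eq_sum_range (fun i => 1 / ((i : ℝ) + 2)) n,
          Fin.sum_univ_eq_sum_range (fun i => ev a (i + 1)) n]
        rfl
    _ ≤ 1 + Hs n := by
        have h3 := Lam_ev a n
        unfold Lam at h3
        rw [Finset.sum_range_succ'] at h3
        have h4 : 0 ≤ ev a 0 := by unfold ev; split_ifs <;> norm_num
        have h5 : (if a ≤ n then (1 : ℝ) else 0) ≤ 1 := by split_ifs <;> norm_num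
        linarith

lemma abs_coord_le (n m : ℕ) (F : Finset (Fin n)) (a : ℕ) (c : Fin n) :
    |(U n).mulVec (pt n m F (ev a)) c| ≤ rho n := by
  unfold rho
  calc |(U n).mulVec (pt n m F (ev a)) c| = |∑ i, U n c i * pt n m F (ev a) i| := rfl
    _ ≤ ∑ i, |U n c i * pt n m F (ev a) i| := Finset.abs_sum_le_sum_abs _ _
    _ ≤ ∑ i, Real.sqrt (2 / n) * |pt n m F (ev a) i| := by
        refine Finset.sum_le_sum fun i _ => ?_
        rw [abs_mul]
        exact mul_le_mul_of_nonneg_right (abs_U_le n c i) (abs_nonneg _)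
    _ = Real.sqrt (2 / n) * ∑ i, |pt n m F (ev a) i| := by rw [Finset.mul_sum]
    _ ≤ Real.sqrt (2 / n) * (1 + Hs n) :=
        mul_le_mul_of_nonneg_left (sum_abs_pt_le n m F a) (Real.sqrt_nonneg _)

lemma hull_coord (n m : ℕ) (F : Finset (Fin n)) (x : Fin n → ℝ)
    (hx : x ∈ Icc (fun _ : Fin n => rho n) (fun _ => 1 - rho n)) :
    convexHull ℝ (range (vtx n m F x)) ⊆ {z | ∀ i, 0 ≤ z i ∧ z i ≤ 1} := by
  apply convexHull_min
  · rintro _ ⟨a, rfl⟩ i
    have h := abs_le.1 (abs_coord_le n m F a i)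
    have h1 := hx.1 i
    have h2 := hx.2 i
    simp only at h1 h2
    simp only [vtx, Pi.add_apply]
    constructor <;> linarith [h.1, h.2]
  · intro z hz w hw s t hs ht hst i
    have h1 := hz i
    have h2 := hw i
    simp only [PiLp.add_apply, PiLp.smul_apply, smul_eq_mul]
    constructor
    · nlinarith [mul_nonneg hs h1.1, mul_nonneg ht h2.1]
    · nlinarith [mul_le_mul_of_nonneg_left h1.2 hs, mul_le_mul_of_nonneg_left h2.2 ht]

lemma xi_le (n : ℕ) (l : ℕ → ℝ) (hl : Prob n l) (i : ℕ) (hi : i < n) : xi l i ≤ 1 / ((i : ℝ) + 2) := by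
  unfold xi
  have h1 : Lam l (i + 1) ≤ 1 := hl.2 ▸ Lam_mono l hl.1 (by omega)
  have h2 := hl.1 (i + 1)
  have h3 : Lam l (i + 1) / ((i : ℝ) + 2) ≤ 1 / ((i : ℝ) + 2) :=
    div_le_div_of_nonneg_right h1 (by positivity)
  linarith

/-- the coordinate functional `(Uᵀ (z - x))_i` on the simplex flipped by `F` -/
lemma functional_hull (n m : ℕ) (hn : 0 < n) (F : Finset (Fin n)) (x : Fin n → ℝ)
    (z : EuclideanSpace ℝ (Fin n)) (hz : z ∈ convexHull ℝ (range (vtx n m F x))) (i : Fin n)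
    (hi : m ≤ (i : ℕ)) : sg F i * ((U n).transpose.mulVec (z.ofLp - x)) i ≤ 0 := by
  obtain ⟨l, hl, hz⟩ := mem_hull n m F x z hz
  rw [hz, add_sub_cancel_left, Matrix.mulVec_mulVec, transpose_U_mul n hn, Matrix.one_mulVec]
  unfold pt
  rw [← mul_assoc, sg_sq, one_mul, cen, if_neg (by omega)]
  have := xi_le n l hl i i.2
  exact mul_nonpos_of_nonneg_of_nonpos (Real.sqrt_nonneg _) (by linarith)

lemma disjoint_cluster (n m : ℕ) (hn : 0 < n) (F F' : Finset (Fin n)) (x : Fin n → ℝ) (i : Fin n)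
    (hi : m ≤ (i : ℕ)) (h : sg F i = - sg F' i) :
    Disjoint (interior (convexHull ℝ (range (vtx n m F x))))
      (interior (convexHull ℝ (range (vtx n m F' x)))) := by
  rw [Set.disjoint_left]
  intro z hz hz'
  set f : EuclideanSpace ℝ (Fin n) → ℝ := fun z => ((U n).transpose.mulVec (z.ofLp - x)) i with hf
  have e1 : sg F i * f z ≤ 0 := functional_hull n m hn F x z (interior_subset hz) i hi
  -- direction
  set d : EuclideanSpace ℝ (Fin n) := WithLp.toLp 2 ((U n).mulVec (Pi.single i (sg F i))) with hd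
  have hcont : Filter.Tendsto (fun t : ℝ => z + t • d) (nhds 0) (nhds z) := by
    have : ContinuousAt (fun t : ℝ => z + t • d) 0 := by fun_prop
    simpa [ContinuousAt] using this
  have hnhds : convexHull ℝ (range (vtx n m F x)) ∈ nhds z := mem_interior_iff_mem_nhds.1 hz
  have hnhds' : convexHull ℝ (range (vtx n m F' x)) ∈ nhds z := mem_interior_iff_mem_nhds.1 hz'
  have hev := (hcont hnhds)
  obtain ⟨r, hr, hball⟩ := Metric.mem_nhds_iff.1 hev
  have hmem : z + (r / 2) • d ∈ convexHull ℝ (range (vtx n m F x)) := by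
    apply hball
    simp only [Metric.mem_ball, dist_zero_right, Real.norm_eq_abs]
    rw [abs_of_pos (by positivity)]
    linarith
  have e2 := functional_hull n m hn F x _ hmem i hi
  have e3 : ((U n).transpose.mulVec ((z + (r / 2) • d).ofLp - x)) i = f z + r / 2 * sg F i := by
    have : (z + (r / 2) • d).ofLp - x = (z.ofLp - x) + (r / 2) • (U n).mulVec (Pi.single i (sg F i)) := by
      rw [hd]
      simp only [WithLp.ofLp_add, WithLp.ofLp_smul]
      abel
    rw [this, Matrix.mulVec_add, Matrix.mulVec_smul, Matrix.mulVec_mulVec, transpose_U_mul n hn,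
      Matrix.one_mulVec]
    simp [hf]
  rw [e3] at e2
  have e4 : sg F' i * f z ≤ 0 := functional_hull n m hn F' x z (interior_subset hz') i hi
  have hs := sg_sq F i
  have : sg F i * (f z + r / 2 * sg F i) = sg F i * f z + r / 2 := by
    rw [mul_add, mul_comm (r / 2) (sg F i), ← mul_assoc, hs, one_mul]
  rw [this] at e2
  rw [h] at e2
  have : -sg F' i * f z = - (sg F' i * f z) := by ring
  linarith

end Pool.Agent.Helper99.SX
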