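import Pool.Agent.Helper99.SX.Orth

/-! Random signs: sub-Gaussian bounds for sums `∑ ± c_k` and for the widths of a rotated simplex. -/

open Finset

namespace Pool.Agent.Helper99.SX

/-- the sign of a Boolean -/
def sn (b : Bool) : ℝ := if b then 1 else -1

lemma sn_sq (b : Bool) : sn b * sn b = 1 := by
  cases b <;> simp [sn]

lemma sum_exp_sn (n : ℕ) (c : Fin n → ℝ) :
    ∑ e : Fin n → Bool, Real.exp (∑ k, c k * sn (e k)) = ∏ k, (2 * Real.cosh (c k)) := by
  have h1 : ∀ e : Fin n → Bool, Real.exp (∑ k, c k * sn (e k)) = ∏ k, Real.exp (c k * sn (e k)) :=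
    fun e => Real.exp_sum _ _
  have h2 : ∀ k, 2 * Real.cosh (c k) = ∑ b : Bool, Real.exp (c k * sn b) := by
    intro k
    rw [Fintype.sum_bool, Real.cosh_eq]
    simp only [sn, if_true, Bool.false_eq_true, if_false, mul_one, mul_neg]
    ring
  simp only [h1, h2]
  rw [Finset.prod_univ_sum, Fintype.piFinset_univ]

lemma sum_exp_sn_le (n : ℕ) (c : Fin n → ℝ) :
    ∑ e : Fin n → Bool, Real.exp (∑ k, c k * sn (e k)) ≤ 2 ^ n * Real.exp ((∑ k, c k ^ 2) / 2) := by
  rw [sum_exp_sn, Finset.prod_mul_distrib, Finset.prod_const, Finset.card_univ, Fintype.card_fin]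
  refine mul_le_mul_of_nonneg_left ?_ (by positivity)
  rw [Finset.sum_div, Real.exp_sum]
  exact Finset.prod_le_prod (fun k _ => (Real.cosh_pos _).le) fun k _ => Real.cosh_le_exp_half_sq _

/-- the number of sign vectors with a large sum -/
lemma card_large_le (n : ℕ) (hn : 0 < n) (c : Fin n → ℝ) (hc : ∑ k, c k ^ 2 ≤ 2 / n) (t : ℝ)
    (ht : 0 ≤ t) :
    ((univ.filter fun e : Fin n → Bool => t < ∑ k, c k * sn (e k)).card : ℝ) ≤
      2 ^ n * Real.exp (-(n * t ^ 2 / 4)) := by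
  have hn' : (0 : ℝ) < n := by exact_mod_cast hn
  set s : ℝ := n * t / 2 with hs
  have hs0 : 0 ≤ s := by positivity
  have h1 := sum_exp_sn_le n (fun k => s * c k)
  have h2 : ∑ k, (s * c k) ^ 2 = s ^ 2 * ∑ k, c k ^ 2 := by
    rw [Finset.mul_sum]
    exact Finset.sum_congr rfl fun k _ => by ring
  rw [h2] at h1
  have h3 : ((univ.filter fun e : Fin n → Bool => t < ∑ k, c k * sn (e k)).card : ℝ) *
      Real.exp (s * t) ≤ ∑ e : Fin n → Bool, Real.exp (∑ k, s * c k * sn (e k)) := by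
    calc ((univ.filter fun e : Fin n → Bool => t < ∑ k, c k * sn (e k)).card : ℝ) * Real.exp (s * t)
        = ∑ e ∈ univ.filter fun e : Fin n → Bool => t < ∑ k, c k * sn (e k), Real.exp (s * t) := by
          rw [Finset.sum_const, nsmul_eq_mul]
      _ ≤ ∑ e ∈ univ.filter fun e : Fin n → Bool => t < ∑ k, c k * sn (e k),
          Real.exp (∑ k, s * c k * sn (e k)) := by
          refine Finset.sum_le_sum fun e he => Real.exp_le_exp.2 ?_
          have h4 : ∑ k, s * c k * sn (e k) = s * ∑ k, c k * sn (e k) := by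
            rw [Finset.mul_sum]
            exact Finset.sum_congr rfl fun k _ => by ring
          rw [h4]
          exact mul_le_mul_of_nonneg_left (Finset.mem_filter.1 he).2.le hs0
      _ ≤ _ := Finset.sum_le_univ_sum_of_nonneg fun e => (Real.exp_pos _).le
  have h5 : Real.exp (s ^ 2 * (∑ k, c k ^ 2) / 2) ≤ Real.exp (n * t ^ 2 / 4) := by
    refine Real.exp_le_exp.2 ?_
    have : s ^ 2 * (∑ k, c k ^ 2) ≤ s ^ 2 * (2 / n) := mul_le_mul_of_nonneg_left hc (sq_nonneg _)
    have h6 : s ^ 2 * (2 / n) = n * t ^ 2 / 2 := by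
      rw [hs]
      field_simp
    linarith
  have h7 := h3.trans (h1.trans (mul_le_mul_of_nonneg_left h5 (by positivity : (0 : ℝ) ≤ 2 ^ n)))
  have h8 : Real.exp (s * t) = Real.exp (n * t ^ 2 / 4) * Real.exp (n * t ^ 2 / 4) := by
    rw [← Real.exp_add, hs]
    congr 1
    ring
  have h9 := Real.exp_pos (n * t ^ 2 / 4)
  rw [h8, ← mul_assoc] at h7
  have h10 := le_of_mul_le_mul_right h7 h9
  rw [Real.exp_neg, ← div_eq_mul_inv, le_div_iff₀ h9]
  exact h10

/-- the bad sign vectors for the points `v a` -/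
noncomputable def bad (n : ℕ) (t : ℝ) (v : Fin (n + 1) → Fin n → ℝ) : Finset (Fin n → Bool) :=
  univ.filter fun e => ∃ p : Fin n × Fin (n + 1) × Fin (n + 1),
    t < ∑ k, U n p.1 k * (v p.2.1 k - v p.2.2 k) * sn (e k)

lemma card_bad_le (n : ℕ) (hn : 0 < n) (v : Fin (n + 1) → Fin n → ℝ)
    (hv : ∀ a b, ∑ k, (v a k - v b k) ^ 2 ≤ 1) :
    ((bad n (4 * Real.sqrt (Real.log (n + 1) / n)) v).card : ℝ) ≤ 2 ^ n / 2 := by
  classical
  set t : ℝ := 4 * Real.sqrt (Real.log (n + 1) / n) with ht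
  have hn' : (0 : ℝ) < n := by exact_mod_cast hn
  have hlog : 0 ≤ Real.log (n + 1) := Real.log_nonneg (by linarith)
  have ht0 : 0 ≤ t := by positivity
  have ht2 : n * t ^ 2 / 4 = 4 * Real.log (n + 1) := by
    rw [ht, mul_pow, Real.sq_sqrt (by positivity)]
    field_simp
  have hexp : Real.exp (-(n * t ^ 2 / 4)) = ((n : ℝ) + 1) ^ (-4 : ℤ) := by
    rw [ht2, Real.exp_neg, mul_comm, Real.exp_mul, Real.exp_log (by linarith)]
    rw [zpow_neg]
    norm_cast
  have hsub : bad n t v ⊆ univ.biUnion fun p : Fin n × Fin (n + 1) × Fin (n + 1) =>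
      univ.filter fun e : Fin n → Bool => t < ∑ k, U n p.1 k * (v p.2.1 k - v p.2.2 k) * sn (e k) := by
    intro e he
    obtain ⟨p, hp⟩ := (Finset.mem_filter.1 he).2
    exact Finset.mem_biUnion.2 ⟨p, Finset.mem_univ _, Finset.mem_filter.2 ⟨Finset.mem_univ _, hp⟩⟩
  have h1 : ((bad n t v).card : ℝ) ≤ ∑ p : Fin n × Fin (n + 1) × Fin (n + 1),
      ((univ.filter fun e : Fin n → Bool =>
        t < ∑ k, U n p.1 k * (v p.2.1 k - v p.2.2 k) * sn (e k)).card : ℝ) := by
    exact_mod_cast (Finset.card_le_card hsub).trans Finset.card_biUnion_le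
  have h2 : ∀ p : Fin n × Fin (n + 1) × Fin (n + 1), ((univ.filter fun e : Fin n → Bool =>
        t < ∑ k, U n p.1 k * (v p.2.1 k - v p.2.2 k) * sn (e k)).card : ℝ) ≤
        2 ^ n * ((n : ℝ) + 1) ^ (-4 : ℤ) := by
    intro p
    rw [← hexp]
    refine card_large_le n hn _ ?_ t ht0
    calc ∑ k, (U n p.1 k * (v p.2.1 k - v p.2.2 k)) ^ 2
        ≤ ∑ k, 2 / n * (v p.2.1 k - v p.2.2 k) ^ 2 := by
          refine Finset.sum_le_sum fun k _ => ?_
          rw [mul_pow]
          refine mul_le_mul_of_nonneg_right ?_ (sq_nonneg _)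
          have h3 := abs_U_le n p.1 k
          rw [← sq_abs]
          calc |U n p.1 k| ^ 2 ≤ Real.sqrt (2 / n) ^ 2 := pow_le_pow_left₀ (abs_nonneg _) h3 2
            _ = 2 / n := Real.sq_sqrt (by positivity)
      _ = 2 / n * ∑ k, (v p.2.1 k - v p.2.2 k) ^ 2 := by rw [Finset.mul_sum]
      _ ≤ 2 / n * 1 := mul_le_mul_of_nonneg_left (hv _ _) (by positivity)
      _ = 2 / n := mul_one _
  refine h1.trans ((Finset.sum_le_sum fun p _ => h2 p).trans ?_)
  rw [Finset.sum_const, Finset.card_univ, Fintype.card_prod, Fintype.card_prod, Fintype.card_fin,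
    Fintype.card_fin, nsmul_eq_mul]
  push_cast
  have h3 : ((n : ℝ) + 1) ^ (-4 : ℤ) = 1 / ((n : ℝ) + 1) ^ 4 := by
    rw [zpow_neg, one_div]
    norm_cast
  rw [h3]
  have h4 : (0 : ℝ) < ((n : ℝ) + 1) ^ 4 := by positivity
  have h5 : (n : ℝ) * ((n + 1) * (n + 1)) * (2 ^ n * (1 / ((n : ℝ) + 1) ^ 4)) =
      2 ^ n * (n / (n + 1) ^ 2) := by
    field_simp
  have h6 : (n : ℝ) / (n + 1) ^ 2 ≤ 1 / 2 := by
    rw [div_le_div_iff₀ (by positivity) (by norm_num)]
    nlinarith
  rw [h5]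
  calc (2 : ℝ) ^ n * (n / (n + 1) ^ 2) ≤ 2 ^ n * (1 / 2) :=
        mul_le_mul_of_nonneg_left h6 (by positivity)
    _ = 2 ^ n / 2 := by ring

/-- averaging over the sign vectors: some sign vector is good for half of a family of simplices -/
lemma exists_signs (n : ℕ) (hn : 0 < n) {k : ℕ} (v : Fin k → Fin (n + 1) → Fin n → ℝ)
    (hv : ∀ i a b, ∑ l, (v i a l - v i b l) ^ 2 ≤ 1) :
    ∃ (e : Fin n → Bool) (G : Finset (Fin k)), (k : ℝ) / 2 ≤ G.card ∧ ∀ i ∈ G, ∀ j a b,
      ∑ l, U n j l * (v i a l - v i b l) * sn (e l) ≤ 4 * Real.sqrt (Real.log (n + 1) / n) := by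
  classical
  set t : ℝ := 4 * Real.sqrt (Real.log (n + 1) / n) with ht
  by_contra hno
  push Not at hno
  have h1 : ∀ e : Fin n → Bool, ((univ.filter fun i : Fin k => e ∉ bad n t (v i)).card : ℝ) < k / 2 := by
    intro e
    by_contra hc
    obtain ⟨i, hi, j, a, b, h⟩ := hno e (univ.filter fun i : Fin k => e ∉ bad n t (v i)) (not_lt.1 hc)
    exact (Finset.mem_filter.1 hi).2 (Finset.mem_filter.2 ⟨Finset.mem_univ _, (j, a, b), h⟩)
  have h2 : ∑ e : Fin n → Bool, ((univ.filter fun i : Fin k => e ∉ bad n t (v i)).card : ℝ) =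
      ∑ i : Fin k, ((univ.filter fun e : Fin n → Bool => e ∉ bad n t (v i)).card : ℝ) := by
    simp only [Finset.card_filter]
    push_cast
    rw [Finset.sum_comm]
  have h3 : ∀ i : Fin k, (2 : ℝ) ^ n / 2 ≤
      ((univ.filter fun e : Fin n → Bool => e ∉ bad n t (v i)).card : ℝ) := by
    intro i
    have h4 := card_bad_le n hn (v i) (hv i)
    have h5 : (univ.filter fun e : Fin n → Bool => e ∉ bad n t (v i)) = (bad n t (v i))ᶜ := by
      ext e
      simp
    rw [h5, Finset.card_compl, Nat.cast_sub (Finset.card_le_univ _)]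
    have h6 : (Fintype.card (Fin n → Bool) : ℝ) = 2 ^ n := by
      rw [Fintype.card_fun, Fintype.card_bool, Fintype.card_fin]
      norm_cast
    rw [h6]
    linarith
  have h4 : ∑ e : Fin n → Bool, ((univ.filter fun i : Fin k => e ∉ bad n t (v i)).card : ℝ) <
      ∑ _e : Fin n → Bool, (k : ℝ) / 2 :=
    Finset.sum_lt_sum_of_nonempty Finset.univ_nonempty fun e _ => h1 e
  have h5 : ∑ _i : Fin k, (2 : ℝ) ^ n / 2 ≤
      ∑ i : Fin k, ((univ.filter fun e : Fin n → Bool => e ∉ bad n t (v i)).card : ℝ) :=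
    Finset.sum_le_sum fun i _ => h3 i
  rw [h2] at h4
  have h6 := h5.trans_lt h4
  rw [Finset.sum_const, Finset.sum_const, Finset.card_univ, Finset.card_univ, Fintype.card_fin,
    Fintype.card_fun, Fintype.card_bool, Fintype.card_fin, nsmul_eq_mul, nsmul_eq_mul] at h6
  push_cast at h6
  linarith [h6]

end Pool.Agent.Helper99.SX
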