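import Pool.Agent.Helper99.SX.Rad

/-! From a packing in a large cube to a packing in the unit cube. -/

open MeasureTheory Set
open scoped ENNReal

namespace Pool.Agent.Helper99.SX

/-- Euclidean space -/
abbrev Eu (n : ℕ) : Type := EuclideanSpace ℝ (Fin n)

lemma sum_sq_sn (n : ℕ) (e : Fin n → Bool) (x : Fin n → ℝ) :
    ∑ l, (x l * sn (e l)) ^ 2 = ∑ l, x l ^ 2 := by
  refine Finset.sum_congr rfl fun l _ => ?_
  have := sn_sq (e l)
  rw [mul_pow, sq (sn (e l)), this, mul_one]

/-- the linear map `U D_e` -/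
noncomputable def rotLin (n : ℕ) (e : Fin n → Bool) : Eu n →ₗ[ℝ] Eu n where
  toFun x := WithLp.toLp 2 fun j => ∑ l, U n j l * (x l * sn (e l))
  map_add' x y := by
    ext j
    simp only [PiLp.add_apply, add_mul, mul_add, Finset.sum_add_distrib]
  map_smul' c x := by
    ext j
    simp only [PiLp.smul_apply, smul_eq_mul, RingHom.id_apply, Finset.mul_sum]
    exact Finset.sum_congr rfl fun l _ => by ring

lemma rotLin_apply (n : ℕ) (e : Fin n → Bool) (x : Eu n) (j : Fin n) :
    rotLin n e x j = ∑ l, U n j l * (x l * sn (e l)) := rfl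

/-- the rotation `U D_e` -/
noncomputable def rot (n : ℕ) (hn : 0 < n) (e : Fin n → Bool) : Eu n ≃ₗᵢ[ℝ] Eu n :=
  LinearIsometry.toLinearIsometryEquiv
    { toLinearMap := rotLin n e
      norm_map' := fun x => by
        rw [EuclideanSpace.norm_eq, EuclideanSpace.norm_eq]
        congr 1
        simp only [Real.norm_eq_abs, sq_abs, rotLin_apply]
        have h := sum_sq_U n hn (fun l => x l * sn (e l))
        rw [sum_sq_sn n e] at h
        simpa [Matrix.mulVec, dotProduct] using h } rfl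

lemma rot_apply (n : ℕ) (hn : 0 < n) (e : Fin n → Bool) (x : Eu n) (j : Fin n) :
    rot n hn e x j = ∑ l, U n j l * (x l * sn (e l)) := rfl

/-- a box in Euclidean space -/
def box (n : ℕ) (a b : Fin n → ℝ) : Set (Eu n) := {x | ∀ j, a j ≤ x j ∧ x j ≤ b j}

lemma box_eq (n : ℕ) (a b : Fin n → ℝ) : box n a b = WithLp.ofLp ⁻¹' (Icc a b) := by
  ext x
  simp only [box, mem_ofPred_eq, mem_preimage, mem_Icc, Pi.le_def]
  exact forall_and

lemma measurableSet_box (n : ℕ) (a b : Fin n → ℝ) : MeasurableSet (box n a b) := by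
  rw [box_eq]
  exact (PiLp.volume_preserving_ofLp (Fin n)).measurable measurableSet_Icc

lemma volume_box (n : ℕ) (a b : Fin n → ℝ) (s : ℝ) (hs : ∀ j, b j - a j = s) :
    volume (box n a b) = ENNReal.ofReal s ^ n := by
  rw [box_eq, (PiLp.volume_preserving_ofLp (Fin n)).measure_preimage measurableSet_Icc.nullMeasurableSet,
    Real.volume_Icc_pi]
  simp only [hs, Finset.prod_const, Finset.card_univ, Fintype.card_fin]

/-- the region of translations -/
lemma volume_region (n : ℕ) (ρ : Eu n ≃ₗᵢ[ℝ] Eu n) (c : Eu n) (a b : Fin n → ℝ) (s : ℝ)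
    (hs : ∀ j, b j - a j = s) :
    MeasurableSet {x : Eu n | ρ.symm (c - x) ∈ box n a b} ∧
      volume {x : Eu n | ρ.symm (c - x) ∈ box n a b} = ENNReal.ofReal s ^ n := by
  have h1 : MeasurePreserving (fun x : Eu n => ρ.symm (c - x)) volume volume :=
    (ρ.symm.measurePreserving).comp (Measure.measurePreserving_sub_left volume c)
  have h2 : {x : Eu n | ρ.symm (c - x) ∈ box n a b} = (fun x : Eu n => ρ.symm (c - x)) ⁻¹' box n a b := rfl
  rw [h2]
  exact ⟨h1.measurable (measurableSet_box n a b), by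
    rw [h1.measure_preimage (measurableSet_box n a b).nullMeasurableSet, volume_box n a b s hs]⟩

/-- the pigeonhole principle for measures -/
lemma exists_many {α ι : Type*} [MeasurableSpace α] [Nonempty α] (μ : Measure α) (G : Finset ι)
    (B : ι → Set α) (R : Set α) (hB : ∀ i ∈ G, MeasurableSet (B i)) (hR : MeasurableSet R)
    (hBR : ∀ i ∈ G, B i ⊆ R) (β V : ℝ) (hV : 0 < V)
    (hβB : ∀ i ∈ G, ENNReal.ofReal β ≤ μ (B i)) (hVR : μ R ≤ ENNReal.ofReal V) :
    ∃ (x : α) (G' : Finset ι), G' ⊆ G ∧ (∀ i ∈ G', x ∈ B i) ∧ (G.card : ℝ) * β / V ≤ G'.card := by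
  classical
  by_contra hno
  push Not at hno
  set A : ℝ := (G.card : ℝ) * β / V with hA
  have hcount : ∀ x, ((G.filter fun i => x ∈ B i).card : ℝ) < A := fun x =>
    hno x _ (Finset.filter_subset _ _) fun i hi => (Finset.mem_filter.1 hi).2
  have hA0 : 0 < A := lt_of_le_of_lt (Nat.cast_nonneg _) (hcount (Classical.arbitrary α))
  set N : ℕ := ⌈A⌉₊ - 1 with hN
  have hceil : 0 < ⌈A⌉₊ := Nat.ceil_pos.2 hA0
  have hNA : (N : ℝ) < A := by
    have h1 := Nat.ceil_lt_add_one hA0.le
    rw [hN, Nat.cast_sub (by omega)]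
    push_cast
    linarith
  have hcN : ∀ x, (G.filter fun i => x ∈ B i).card ≤ N := by
    intro x
    have h1 : (G.filter fun i => x ∈ B i).card < ⌈A⌉₊ := Nat.lt_ceil.2 (hcount x)
    omega
  have h1 : ∑ i ∈ G, μ (B i) ≤ N * ENNReal.ofReal V := by
    calc ∑ i ∈ G, μ (B i) = ∑ i ∈ G, ∫⁻ x, (B i).indicator 1 x ∂μ :=
          Finset.sum_congr rfl fun i hi => (lintegral_indicator_one (hB i hi)).symm
      _ = ∫⁻ x, ∑ i ∈ G, (B i).indicator 1 x ∂μ :=
          (lintegral_finsetSum' G fun i hi => (measurable_one.indicator (hB i hi)).aemeasurable).symm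
      _ ≤ ∫⁻ x, R.indicator (fun _ => (N : ℝ≥0∞)) x ∂μ := by
          refine lintegral_mono fun x => ?_
          by_cases hx : x ∈ R
          · rw [indicator_of_mem hx]
            have h2 : ∑ i ∈ G, (B i).indicator (1 : α → ℝ≥0∞) x = ((G.filter fun i => x ∈ B i).card : ℝ≥0∞) := by
              rw [Finset.card_filter]
              push_cast
              exact Finset.sum_congr rfl fun i _ => by simp [indicator_apply]
            rw [h2]
            exact (Nat.cast_le (α := ℝ≥0∞)).2 (hcN x)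
          · rw [indicator_of_notMem hx]
            refine le_of_eq (Finset.sum_eq_zero fun i hi => ?_)
            rw [indicator_of_notMem fun h => hx (hBR i hi h)]
      _ = N * μ R := by rw [lintegral_indicator hR, setLIntegral_const]
      _ ≤ N * ENNReal.ofReal V := mul_le_mul_right hVR _
  have h2 : (G.card : ℝ≥0∞) * ENNReal.ofReal β ≤ ∑ i ∈ G, μ (B i) := by
    rw [← nsmul_eq_mul, ← Finset.sum_const]
    exact Finset.sum_le_sum hβB
  have h3 := h2.trans h1
  rw [← ENNReal.ofReal_natCast, ← ENNReal.ofReal_natCast, ← ENNReal.ofReal_mul (Nat.cast_nonneg _),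
    ← ENNReal.ofReal_mul (Nat.cast_nonneg _), ENNReal.ofReal_le_ofReal_iff (by positivity)] at h3
  have h4 : (N : ℝ) * V < A * V := mul_lt_mul_of_pos_right hNA hV
  rw [hA, div_mul_cancel₀ _ hV.ne'] at h4
  linarith

end Pool.Agent.Helper99.SX
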